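import Pool.Agent.Helper24.AF.HMain1

/-!
Endomorphisms of a factor of rank two over a CM field of degree four commute with the field.
-/

namespace Pool.Agent.Helper24

open Module NumberField Pool.Agent.Helper7

set_option linter.unusedSectionVars false

/-- an intertwiner of two surjective representations on `ℂ^2` is zero or invertible -/
lemma inter_zero {G : Type*} (A A' : G → Matrix (Fin 2) (Fin 2) ℂ) (B : Matrix (Fin 2) (Fin 2) ℂ)
    (h : ∀ X, B * A X = A' X * B)
    (hs : ∀ Z : Matrix (Fin 2) (Fin 2) ℂ, Z.trace = 0 → ∃ X, A X = Z) (hB : B ≠ 0) :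
    B.det ≠ 0 := by
  intro h0
  obtain ⟨v, hv, hv0⟩ := Matrix.exists_mulVec_eq_zero_iff.mpr h0
  have hZ : ∀ Z : Matrix (Fin 2) (Fin 2) ℂ, Z.trace = 0 → B.mulVec (Z.mulVec v) = 0 := by
    intro Z hZ
    obtain ⟨X, rfl⟩ := hs Z hZ
    rw [Matrix.mulVec_mulVec, h, ← Matrix.mulVec_mulVec, hv0, Matrix.mulVec_zero]
  have hE := hZ mE tr_mE
  have hF := hZ mF tr_mF
  have hH := hZ mH tr_mH
  apply hB
  have c : ∀ a, B a 0 * v 0 + B a 1 * v 1 = 0 := fun a => by
    have := congrFun hv0 a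
    simpa [Matrix.mulVec, dotProduct, Fin.sum_univ_two] using this
  have cE : ∀ a, B a 0 * v 1 = 0 := fun a => by
    have := congrFun hE a
    simpa [Matrix.mulVec, dotProduct, Fin.sum_univ_two, mE00, mE01, mE10, mE11] using this
  have cF : ∀ a, B a 1 * v 0 = 0 := fun a => by
    have := congrFun hF a
    simpa [Matrix.mulVec, dotProduct, Fin.sum_univ_two, mF00, mF01, mF10, mF11] using this
  have hv' : v 0 ≠ 0 ∨ v 1 ≠ 0 := by
    by_contra hcon
    push Not at hcon
    apply hv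
    funext j
    fin_cases j
    · exact hcon.1
    · exact hcon.2
  have cH : ∀ a, B a 0 * v 0 - B a 1 * v 1 = 0 := fun a => by
    have := congrFun hH a
    simp only [Matrix.mulVec, dotProduct, Fin.sum_univ_two, mH00, mH01, mH10, mH11, one_mul,
      zero_mul, add_zero, zero_add, neg_mul, mul_neg, Pi.zero_apply] at this
    linear_combination this
  have hcol : ∀ a, B a 0 = 0 ∧ B a 1 = 0 := by
    intro a
    rcases hv' with h | h
    · have h1 : B a 1 = 0 := (mul_eq_zero.mp (cF a)).resolve_right h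
      have h2 := c a
      rw [h1, zero_mul, add_zero] at h2
      exact ⟨(mul_eq_zero.mp h2).resolve_right h, h1⟩
    · have h1 : B a 0 = 0 := (mul_eq_zero.mp (cE a)).resolve_right h
      have h2 := c a
      rw [h1, zero_mul, zero_add] at h2
      exact ⟨h1, (mul_eq_zero.mp h2).resolve_right h⟩
  ext a b
  fin_cases b
  · exact (hcol a).1
  · exact (hcol a).2

section family

variable {I : Type} [Fintype I] [DecidableEq I] {n : I → ℕ}
  {κ : I → Type} [∀ i, Fintype (κ i)] [∀ i, DecidableEq (κ i)] {ϖ : ℂ}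
  {P : ∀ i, PData (κ i) ϖ}
  {K : I → Type} [∀ i, Field (K i)] [∀ i, NumberField (K i)]
  {F : ∀ i, UF (P i) (K i) 2}
  {k : ℕ} {α : MultilinearMap ℂ (fun _ : Fin (2 * k) => HW κ n) ℂ}
  (hϖ : ϖ ≠ 0)
  (hB : ∀ v : Fin (2 * k) → HW κ n, (∀ r, IsRatP n P (v r)) → ∃ q : ℚ, α v = ϖ ^ k * q)
  (hA : ∀ v : Fin (2 * k) → HW κ n, (∀ r i m j, IsAlgebraic ℚ (v r i m j)) →
      IsAlgebraic ℚ (α v))
  (hun : UnLinked n P (GT P F) α)

include hϖ hB hA hun in
/-- the components of an endomorphism between different places vanish -/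
lemma end_comp_zero (H : Four P F) (i : I) (f : Module.End ℂ (κ i → ℂ))
    (hf : IsDRB (P i) (P i) f) (σ τ : K i →+* ℂ) (hστ : σ ≠ τ) (a b : Fin 2) :
    (F i).co τ a (f ((F i).e σ b)) = 0 := by
  obtain ⟨B, hBd⟩ : ∃ B : Matrix (Fin 2) (Fin 2) ℂ, B =
    Matrix.of fun a b => (F i).co τ a (f ((F i).e σ b)) := ⟨_, rfl⟩
  have hBa : ∀ a b, B a b = (F i).co τ a (f ((F i).e σ b)) := fun a b => by rw [hBd]; rfl
  rw [← hBa]
  have hl : (GT P F i).isLeft := rfl
  have hint : ∀ X : {X : GG κ // IsInv n P α X}, B * (GT P F i).mat σ (X.1.1 i) =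
      (GT P F i).mat τ (X.1.1 i) * B := by
    rintro ⟨X, hX⟩
    have hc := hX.commT n P (GT P F) α i
    ext a b
    rw [Matrix.mul_apply, Matrix.mul_apply]
    have h1 := hX.comm i i f hf ((F i).e σ b)
    have h2 : X.1 i ((F i).e σ b) = ∑ c, (GT P F i).mat σ (X.1 i) c b • (F i).e σ c :=
      (GT P F i).act hc σ b
    have h3 : (F i).co τ a (X.1 i (f ((F i).e σ b))) =
        ∑ c, (GT P F i).mat τ (X.1 i) a c * (F i).co τ c (f ((F i).e σ b)) :=
      (GT P F i).co_act hc τ a _ (Or.inl hl)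
    have h4 : (F i).co τ a (f (X.1 i ((F i).e σ b))) =
        ∑ c, (GT P F i).mat σ (X.1 i) c b * (F i).co τ a (f ((F i).e σ c)) := by
      rw [h2, map_sum, map_sum]
      exact Finset.sum_congr rfl fun c _ => by rw [map_smul, map_smul, smul_eq_mul]
    simp only [hBa]
    rw [← h3, h1, h4]
    exact Finset.sum_congr rfl fun c _ => mul_comm _ _
  by_contra hne
  have hB0 : B ≠ 0 := by
    rintro h0
    rw [h0] at hne
    exact hne rfl
  have hdet := inter_zero (fun X : {X : GG κ // IsInv n P α X} => (GT P F i).mat σ (X.1.1 i))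
    (fun X => (GT P F i).mat τ (X.1.1 i)) B hint (fun Z hZ => by
      obtain ⟨X, hX, hXZ⟩ := sl_surjT n P (GT P F) α hϖ hB hA i hl σ Z hZ
      exact ⟨⟨X, hX⟩, hXZ⟩) hB0
  have hu : IsUnit B.det := isUnit_iff_ne_zero.mpr hdet
  have htr : ∀ X, IsInv n P α X → ((GT P F i).mat σ (X.1 i)).trace =
      ((GT P F i).mat τ (X.1 i)).trace := by
    intro X hX
    have h1 := congrArg (fun M => (M * B⁻¹).trace) (hint ⟨X, hX⟩)
    simp only at h1
    rw [Matrix.trace_mul_comm, ← mul_assoc, Matrix.nonsing_inv_mul _ hu, one_mul, mul_assoc,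
      Matrix.mul_nonsing_inv _ hu, mul_one] at h1
    exact h1
  have hτ : ComplexEmbedding.conjugate τ ≠ τ := fun h => H.conj ⟨i, τ⟩ (by
    show (⟨i, ComplexEmbedding.conjugate τ⟩ : Σ i, (K i →+* ℂ)) = ⟨i, τ⟩
    rw [h])
  rcases hun i τ i σ hl hl hτ B hdet (fun X hX => by
    have h1 := hint ⟨X, hX⟩
    simp only at h1
    rw [sub_mul, mul_sub, ← h1, htr X hX, smul_mul_assoc, one_mul, mul_smul_comm, mul_one])
    with h | h
  · exact hστ (sigma_mk_injective (β := fun i => (K i →+* ℂ)) h)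
  · have hσ : σ = ComplexEmbedding.conjugate τ :=
      sigma_mk_injective (β := fun i => (K i →+* ℂ)) h
    refine trace_ne n P F α hϖ hB hA i (H.cen i) τ hτ fun X hX _ => ?_
    have h1 := (GT P F i).trcj hl (X.1 i) (hX.commT n P (GT P F) α i) X.2 (hX.pol i) τ
    rw [← hσ, htr X hX] at h1
    rw [wtU, if_pos hl]
    show ((GT P F i).mat τ (X.1 i)).trace / 2 = X.2 / 2
    linear_combination h1 / 4

include hϖ hB hA hun in
/-- endomorphisms commute with the field -/
theorem end_comm (H : Four P F) (i : I) (f : Module.End ℂ (κ i → ℂ))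
    (hf : IsDRB (P i) (P i) f) (x : K i) (v : κ i → ℂ) :
    f ((F i).ρ x v) = (F i).ρ x (f v) := by
  refine (F i).ext_e (f ∘ₗ (F i).ρ x) ((F i).ρ x ∘ₗ f) (fun σ j => ?_) v
  rw [LinearMap.comp_apply, LinearMap.comp_apply, (F i).rho_e, map_smul]
  rw [(F i).hsum (f ((F i).e σ j)), Finset.smul_sum, map_sum]
  refine Finset.sum_congr rfl fun τ _ => ?_
  rw [Finset.smul_sum, map_sum]
  refine Finset.sum_congr rfl fun a _ => ?_
  by_cases hτ : σ = τ
  · subst hτ
    rw [map_smul, (F i).rho_e, smul_comm]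
  · rw [end_comp_zero hϖ hB hA hun H i f hf σ τ hτ a j, zero_smul, smul_zero, map_zero]

end family

end Pool.Agent.Helper24
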