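import Pool.Agent.Helper24.AF.HEndo
import Pool.Agent.Helper24.AF.HEnd

/-!
Abelian fourfolds with an action of a CM field of degree four: Grothendieck classes are divisorial
plus Weil classes.
-/

namespace Pool.Agent.Helper24

open Module NumberField Pool.Agent.Helper7 Pool.Agent.GPC Pool.Agent.Helper84

set_option linter.unusedSectionVars false

section emb

variable {K : Type} [Field K] [NumberField K] [IsCMField K]

lemma emb_conj_ne (s : K →+* ℂ) : ComplexEmbedding.conjugate s ≠ s := fun h =>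
  IsTotallyComplex.complexEmbedding_not_isReal s (ComplexEmbedding.isReal_iff.mpr h)

lemma emb_cc (s : K →+* ℂ) :
    ComplexEmbedding.conjugate (ComplexEmbedding.conjugate s) = s := by
  ext x; simp

lemma emb_cov (hd : finrank ℚ K = 4) (s t t' : K →+* ℂ) (h1 : t ≠ s)
    (h2 : t ≠ ComplexEmbedding.conjugate s) :
    t' = s ∨ t' = ComplexEmbedding.conjugate s ∨ t' = t ∨ t' = ComplexEmbedding.conjugate t := by
  classical
  by_contra hcon
  push Not at hcon
  obtain ⟨c1, c2, c3, c4⟩ := hcon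
  have hcard : Fintype.card (K →+* ℂ) = 4 := by rw [card_emb, hd]
  have n1 := emb_conj_ne s
  have n2 := emb_conj_ne t
  have n3 : ComplexEmbedding.conjugate t ≠ s := fun h => h2 (by rw [← h, emb_cc])
  have n4 : ComplexEmbedding.conjugate t ≠ ComplexEmbedding.conjugate s := fun h =>
    h1 (by rw [← emb_cc t, h, emb_cc])
  have h3 : ({t', s, ComplexEmbedding.conjugate s, t, ComplexEmbedding.conjugate t} :
      Finset (K →+* ℂ)).card = 5 := by
    rw [Finset.card_insert_of_notMem, Finset.card_insert_of_notMem,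
      Finset.card_insert_of_notMem, Finset.card_pair n2.symm]
    · simp only [Finset.mem_insert, Finset.mem_singleton, not_or]
      exact ⟨h2.symm, n4.symm⟩
    · simp only [Finset.mem_insert, Finset.mem_singleton, not_or]
      exact ⟨n1.symm, h1.symm, n3.symm⟩
    · simp only [Finset.mem_insert, Finset.mem_singleton, not_or]
      exact ⟨c1, c2, c3, c4⟩
  have h4 := Finset.card_le_univ ({t', s, ComplexEmbedding.conjugate s, t,
    ComplexEmbedding.conjugate t} : Finset (K →+* ℂ))
  omega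

lemma emb_ex (hd : finrank ℚ K = 4) (s : K →+* ℂ) :
    ∃ t, t ≠ s ∧ t ≠ ComplexEmbedding.conjugate s := by
  classical
  by_contra hcon
  push Not at hcon
  have hcard : Fintype.card (K →+* ℂ) = 4 := by rw [card_emb, hd]
  have h1 : (Finset.univ : Finset (K →+* ℂ)) ⊆ {s, ComplexEmbedding.conjugate s} := by
    intro t _
    rw [Finset.mem_insert, Finset.mem_singleton]
    by_cases h : t = s
    · exact Or.inl h
    · exact Or.inr (hcon t h)
  have h2 := Finset.card_le_card h1
  have h3 := Finset.card_le_two (a := s) (b := ComplexEmbedding.conjugate s)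
  rw [Finset.card_univ, hcard] at h2
  omega

end emb

/-- Abelian fourfolds of rank two over a CM field of degree four with pure and mixed places. -/
theorem herm_four {I : Type} [Fintype I] (A : I → AbVar) (n : I → ℕ) (i : I)
    (hI : ∀ j, j = i) (hn : n i = 1) (K : Type) [Field K] [NumberField K]
    [NumberField.IsCMField K] (ρ : K → (A i).H1 → (A i).H1)
    (C : (A i).IsHermMult K ρ) (hK : finrank ℚ K = 4) (hg : (A i).g = 4)
    (hp : ∃ σ : K →+* ℂ, (A i).IsPureAt ρ σ) (hm : ∃ σ : K →+* ℂ, ¬ (A i).IsPureAt ρ σ) (k : ℕ)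
    (α : Form A n (2 * k)) (hα : IsGrothendieck A n k α) : IsDivisorialWeil A n k α := by
  classical
  have hF : ∀ j, ∃ F : UF (pData (A j)) K 2,
      (∀ f, IsDRB (pData (A j)) (pData (A j)) f →
        (∀ x, F.cc x = x → ∀ v, f (F.ρ x v) = F.ρ x (f v)) → ∃ x, ∀ v, f v = F.ρ x v) ∧
      ∀ σ, IsDefAt (A j) F.ρ σ ↔ (A i).IsPureAt ρ σ := by
    intro j
    have hj := hI j
    subst hj
    obtain ⟨F, hF, hcc⟩ := nonempty_UFh (A j) K ρ C 2 (by rw [hK, hg])
    refine ⟨F, fun f hf hc => ?_, fun σ => isDefAt_iff F ρ hF σ⟩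
    obtain ⟨x, hx⟩ := C.centralizer f (isEnd_of_isDRB _ _ hf) (fun x h v => by
      have h1 := hc x (by rw [hcc]; exact h) v
      rw [hF, hF] at h1
      exact h1)
    exact ⟨x, fun v => by rw [hx, hF]⟩
  choose F hFc hFd using hF
  have hone : ∀ i j : I, i = j := fun a b => (hI a).trans (hI b).symm
  have hn' : ∀ j, n j = 1 := fun j => by rw [hI j]; exact hn
  have H : Four (K := fun _ : I => K) (fun i => pData (A i)) F := by
    refine ⟨?_, ?_, hone, hFc⟩
    · rintro ⟨j, σ⟩ h
      exact emb_conj_ne σ (sigma_mk_injective (β := fun _ : I => (K →+* ℂ)) h)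
    · rintro ⟨j, s⟩ ⟨j1, t⟩ ⟨j2, t'⟩ h1 h2
      obtain rfl := hone j j1
      obtain rfl := hone j j2
      have e1 : t ≠ s := fun h => h1 (by rw [h])
      have e2 : t ≠ ComplexEmbedding.conjugate s := fun h => h2 (by
        show (⟨j, t⟩ : Σ _ : I, (K →+* ℂ)) = ⟨j, ComplexEmbedding.conjugate s⟩
        rw [h])
      rcases emb_cov hK s t t' e1 e2 with h | h | h | h
      · left; rw [h]
      · right; left; rw [h]; rfl
      · right; right; left; rw [h]
      · right; right; right; rw [h]; rfl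
  have hE : ∀ s : Σ _ : I, (K →+* ℂ), ∃ t, t ≠ s ∧ t ≠ Pool.Agent.Helper7.conjT s := by
    rintro ⟨j, s⟩
    obtain ⟨t, h1, h2⟩ := emb_ex hK s
    refine ⟨⟨j, t⟩, fun h => h1 (sigma_mk_injective (β := fun _ : I => (K →+* ℂ)) h),
      fun h => h2 (sigma_mk_injective (β := fun _ : I => (K →+* ℂ)) h)⟩
  have hϖ := Complex.two_pi_I_ne_zero
  have hB : ∀ v : Fin (2 * k) → HW (kA A) n, (∀ r, IsRatP n (fun i => pData (A i)) (v r)) →
      ∃ q : ℚ, tM n α v = (2 * Real.pi * Complex.I) ^ k * q := by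
    intro v hv
    apply hα.2
    intro r i m
    exact (mem_pData_Q _ _).mp (hv r i m)
  have hA : ∀ v : Fin (2 * k) → HW (kA A) n, (∀ r i m j, IsAlgebraic ℚ (v r i m j)) →
      IsAlgebraic ℚ (tM n α v) := hα.1
  have hdefc : ∀ j (σ : K →+* ℂ), IsDefAt (A j) (F j).ρ σ →
      IsDefAt (A j) (F j).ρ (ComplexEmbedding.conjugate σ) := fun j σ h =>
    defAt_conj (F j).ρ (fun x => isEnd_of_isDRB _ _ ((F j).hρ x)) h
  obtain ⟨σp, hσp⟩ := hp
  obtain ⟨σm, hσm⟩ := hm
  have hun : UnLinked n (fun i => pData (A i)) (GT (K := fun _ : I => K)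
      (fun i => pData (A i)) F) (tM n α) := by
    refine unlinked_of_sign n _ _ _ hϖ hB hA (fun j σ j' τ _ _ _ h1 h2 => ?_)
    obtain rfl := hone j j'
    have e1 : τ ≠ σ := fun h => h1 (by rw [h])
    have e2 : τ ≠ ComplexEmbedding.conjugate σ := fun h => h2 (by
      show (⟨j, τ⟩ : Σ _ : I, (K →+* ℂ)) = ⟨j, ComplexEmbedding.conjugate σ⟩
      rw [h])
    obtain ⟨g, hgg⟩ := exists_aut σ σp
    refine ⟨g, fun hiff => ?_⟩
    have hgr : ∀ σ' : K →+* ℂ, Aniso (FT.gram (GT (K := fun _ : I => K)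
        (fun i => pData (A i)) F j) σ') ↔ (A i).IsPureAt ρ σ' := fun σ' =>
      (aniso_gram (F j) σ').trans (hFd j σ')
    rw [hgr, hgr, hgg] at hiff
    have h3 := hiff.mp hσp
    -- the other embedding is mixed
    have f1 : (g : ℂ →+* ℂ).comp τ ≠ σp := by
      rw [← hgg]
      intro h
      apply e1
      ext x
      have := RingHom.congr_fun h x
      exact g.injective this
    have f2 : (g : ℂ →+* ℂ).comp τ ≠ ComplexEmbedding.conjugate σp := by
      intro h
      apply e2
      have hgc : (g : ℂ →+* ℂ).comp (ComplexEmbedding.conjugate σ) =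
          ComplexEmbedding.conjugate σp := by
        rw [← hgg]
        refine RingHom.ext fun x => ?_
        have h1 := (F j).hcc σ x
        have h2 := (F j).hcc ((g : ℂ →+* ℂ).comp σ) x
        rw [ComplexEmbedding.conjugate_coe_eq, ← h2, RingHom.comp_apply, RingHom.comp_apply, h1,
          ComplexEmbedding.conjugate_coe_eq]
      rw [← hgc] at h
      ext x
      have := RingHom.congr_fun h x
      exact g.injective this
    have hpm : ∀ σ' : K →+* ℂ, (A i).IsPureAt ρ σ' →
        (A i).IsPureAt ρ (ComplexEmbedding.conjugate σ') := fun σ' h =>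
      (hFd j _).mp (hdefc j _ ((hFd j _).mpr h))
    rcases emb_cov hK σp _ σm f1 f2 with h | h | h | h
    · rw [h] at hσm; exact hσm hσp
    · rw [h] at hσm; exact hσm (hpm _ hσp)
    · rw [h] at hσm; exact hσm h3
    · rw [h] at hσm; exact hσm (hpm _ h3)
  have hform := form_mem (n := n) (P := fun i => pData (A i)) (K := fun _ : I => K) (F := F)
    (α := α) hϖ hB hA hun H hE hn'
  refine isDivisorialWeil_of_mult A n k α hα (Submodule.span_mono ?_ hform)
  rintro M (⟨π, β, hβ, rfl⟩ | ⟨hk, x, d, hd, hx, hM⟩)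
  · exact Or.inl ⟨π, β, hβ, rfl⟩
  refine Or.inr ⟨⟨hk, ?_⟩, d, lift (κ := kA A) n (fun j => (F j).ρ (x j)), ?_, hM⟩
  · rw [Fintype.sum_eq_single i (fun j hj => absurd (hI j) hj), hn, hg]
  have hdrb : ∀ j, IsDRB (pData (A j)) (pData (A j)) ((F j).ρ (x j)) := fun j => (F j).hρ _
  refine ⟨hd, endo_lift A n _ hdrb, fun v => ?_, ?_, Or.inl fun f hf v => ?_⟩
  · funext j m
    rw [lift_apply, lift_apply, ← Module.End.mul_apply, ← map_mul, hx, map_neg]
    have h1 := rho_ratsmul (F j).ρ d 1
    rw [Algebra.smul_def, mul_one, map_one, eq_ratCast] at h1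
    rw [h1, LinearMap.neg_apply, LinearMap.smul_apply, Module.End.one_apply, ← neg_smul]
    rfl
  · rintro ⟨c, hc⟩
    have hσm' : ¬ IsDefAt (A i) (F i).ρ σm := fun h => hσm ((hFd i σm).mp h)
    obtain ⟨v, w, hv, hw, hv0, hw0, hvw⟩ := not_scalar (F i).ρ
      (fun x => isEnd_of_isDRB _ _ ((F i).hρ x)) hσm' hd (hx i)
    have m0 : Fin (n i) := ⟨0, by rw [hn]; norm_num⟩
    have key : ∀ v : (A i).H1, (A i).IsFil v → (F i).ρ (x i) v = c • v := by
      intro v hv
      have h1 := hc (slotL (κ := kA A) n i m0 v) (fun j m =>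
        slot_apply_cases A n (X := fun i v => (A i).IsFil v) (fun i => fil_zero (A i)) i m0 v hv
          j m)
      have h2 := congrArg (prL (κ := kA A) n i m0) h1
      rw [lift_slot, prL_slotL, map_smul, prL_slotL] at h2
      exact h2
    exact hvw c ⟨key v hv, key w hw⟩
  · refine lift_comm A n _ (fun a b h hh v => ?_) f hf v
    obtain rfl := hone a b
    exact end_comm (n := n) (P := fun i => pData (A i)) (K := fun _ : I => K) (F := F)
      (α := tM n α) hϖ hB hA hun H a h hh (x a) v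

end Pool.Agent.Helper24
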