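import Pool.Agent.Helper24.AF.HRel
import Pool.Agent.Helper24.PT.USlots

/-!
Components of an alternating form on a factor of rank two over a CM field of degree four.
-/

namespace Pool.Agent.Helper24

open Module NumberField Pool.Agent.Helper7

set_option linter.unusedSectionVars false

section frames

variable {W : Type} [AddCommGroup W] [Module ℂ W] {Qs T C G : Type} [Fintype Qs]
    [DecidableEq Qs] [DecidableEq T] (S : FramesC W Qs T C G)
    {k : ℕ} (α : MultilinearMap ℂ (fun _ : Fin (2 * k) => W) ℂ)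
    (hα : ∀ X v, ∑ r, α (Function.update v r (S.L X (v r))) = (k * S.c X) * α v)

include hα in
/-- each class of places occurs an even number of times -/
lemma even_cls [DecidableEq C] (p : Fin (2 * k) → Qs) (j₀ : Fin (2 * k) → Fin 2)
    (hj₀ : α (fun r => S.e (p r) (j₀ r)) ≠ 0) (c : C) :
    Even ((S.glSlots p).filter (fun r => S.cls (S.pl (p r)) = c)).card := by
  classical
  have hfin : ∀ j : Fin 2, j = 0 ∨ j = 1 := by
    intro j; fin_cases j <;> simp
  have hcof : S.cof α p j₀ ≠ 0 := by
    have h1 : (fun r => S.e (p r) (S.cut p j₀ r)) = fun r => S.e (p r) (j₀ r) := by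
      funext r
      unfold FramesC.cut
      split_ifs with h
      · rfl
      · rcases hfin (j₀ r) with h2 | h2
        · rw [h2]
        · exfalso
          apply hj₀
          apply α.map_coord_zero r
          show S.e (p r) (j₀ r) = 0
          rw [h2, S.e_one _ h]
    rw [FramesC.cof, h1]
    exact hj₀
  have h1 := (FramesC.cof_inv S α hα p).weight c j₀
  have h2 := (mul_eq_zero.mp h1).resolve_right hcof
  have h3 : ((∑ r ∈ (S.glSlots p).filter (fun r => S.cls (S.pl (p r)) = c),
      (if j₀ r = 0 then (1 : ℤ) else -1) : ℤ) : ℂ) = 0 := by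
    rw [← h2, Finset.sum_filter]
    push_cast
    refine Finset.sum_congr rfl fun r _ => ?_
    split_ifs <;> simp_all
  have h4 : ∑ r ∈ (S.glSlots p).filter (fun r => S.cls (S.pl (p r)) = c),
      (if j₀ r = 0 then (1 : ℤ) else -1) = 0 := by exact_mod_cast h3
  have h5 : ∑ r ∈ (S.glSlots p).filter (fun r => S.cls (S.pl (p r)) = c),
      ((if j₀ r = 0 then (1 : ℤ) else -1) + 1) =
      (((S.glSlots p).filter (fun r => S.cls (S.pl (p r)) = c)).card : ℤ) := by
    rw [Finset.sum_add_distrib, h4, zero_add, Finset.sum_const, nsmul_eq_mul, mul_one]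
  have h6 : ((((S.glSlots p).filter (fun r => S.cls (S.pl (p r)) = c)).card : ℕ) : ℤ) =
      2 * ((((S.glSlots p).filter (fun r => S.cls (S.pl (p r)) = c)).filter
        (fun r => j₀ r = 0)).card : ℕ) := by
    rw [← h5, Finset.card_filter]
    push_cast
    rw [Finset.mul_sum]
    refine Finset.sum_congr rfl fun r _ => ?_
    split_ifs <;> norm_num
  exact ⟨_, by
    have h7 : (((S.glSlots p).filter (fun r => S.cls (S.pl (p r)) = c)).card : ℕ) =
      2 * (((S.glSlots p).filter (fun r => S.cls (S.pl (p r)) = c)).filter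
        (fun r => j₀ r = 0)).card := by exact_mod_cast h6
    rw [h7]; ring⟩

end frames

section family

variable {I : Type} [Fintype I] [DecidableEq I] (n : I → ℕ)
  {κ : I → Type} [∀ i, Fintype (κ i)] [∀ i, DecidableEq (κ i)] {ϖ : ℂ}
  (P : ∀ i, PData (κ i) ϖ)
  {K : I → Type} [∀ i, Field (K i)] [∀ i, NumberField (K i)]
  (F : ∀ i, UF (P i) (K i) 2)
  {k : ℕ} (α : (HW κ n) [⋀^Fin (2 * k)]→ₗ[ℂ] ℂ)

/-- the components of a form -/
noncomputable def cmpt (p : Fin (2 * k) → At n K) :
    MultilinearMap ℂ (fun _ : Fin (2 * k) => HW κ n) ℂ :=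
  (α : MultilinearMap ℂ (fun _ : Fin (2 * k) => HW κ n) ℂ).compLinearMap
    (fun r => EE n P F (p r))

lemma cmpt_apply (p : Fin (2 * k) → At n K) (v : Fin (2 * k) → HW κ n) :
    cmpt n P F α p v = α (fun r => EE n P F (p r) (v r)) := rfl

lemma sum_cmpt : (α : MultilinearMap ℂ (fun _ : Fin (2 * k) => HW κ n) ℂ) =
    ∑ p, cmpt n P F α p := by
  refine MultilinearMap.ext fun v => ?_
  rw [_root_.sum_apply]
  exact sum_labels n P F α v

lemma EE_slot (t : At n K) (i : I) (m : Fin (n i)) (σ : K i →+* ℂ) (j : Fin 2) :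
    EE n P F t (slotL n i m ((F i).e σ j)) =
      open Classical in if (⟨i, m, σ⟩ : At n K) = t then slotL n i m ((F i).e σ j) else 0 := by
  classical
  obtain ⟨i', m', σ'⟩ := t
  rw [EE_apply]
  show slotL n i' m' (proj (F i').ρ σ' (prL n i' m' (slotL n i m ((F i).e σ j)))) = _
  by_cases hi : i' = i
  · subst hi
    by_cases hm : m' = m
    · subst hm
      rw [prL_slotL, (F i').proj_e]
      by_cases hσ : σ' = σ
      · subst hσ
        rw [if_pos rfl, if_pos rfl]
      · rw [if_neg hσ, map_zero, if_neg]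
        intro h
        have h3 := sigma_mk_injective (β := fun i => Fin (n i) × (K i →+* ℂ)) h
        exact hσ (Prod.mk.inj h3).2.symm
    · rw [prL_slotL_ne n i' m m' hm, map_zero, map_zero, if_neg]
      intro h
      have h3 := sigma_mk_injective (β := fun i => Fin (n i) × (K i →+* ℂ)) h
      exact hm (Prod.mk.inj h3).1.symm
  · rw [prL_slotL_ne' n i i' m m' hi, map_zero, map_zero, if_neg]
    intro h
    exact hi (congrArg Sigma.fst h).symm

/-- the form as multilinear map -/
abbrev tM {k : ℕ} (α : (HW κ n) [⋀^Fin (2 * k)]→ₗ[ℂ] ℂ) :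
    MultilinearMap ℂ (fun _ : Fin (2 * k) => HW κ n) ℂ := α

lemma EE_upd (p : Fin (2 * k) → At n K) (v : Fin (2 * k) → HW κ n) (r : Fin (2 * k)) (x : HW κ n) :
    (fun r' => EE n P F (p r') (Function.update v r x r')) =
      Function.update (fun r' => EE n P F (p r') (v r')) r (EE n P F (p r) x) := by
  funext r'
  by_cases h : r' = r
  · subst h; rw [Function.update_self, Function.update_self]
  · rw [Function.update_of_ne h, Function.update_of_ne h]

lemma cmpt_inv (p : Fin (2 * k) → At n K) (X : GG κ) (hX : IsInv n P (tM n α) X)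
    (v : Fin (2 * k) → HW κ n) :
    ∑ r, cmpt n P F α p (Function.update v r (lift n X.1 (v r))) =
      (k * X.2) * cmpt n P F α p v := by
  have h1 := congrArg (fun g => g (fun r => EE n P F (p r) (v r))) hX.form
  simp only [actForm_apply, _root_.smul_apply, smul_eq_mul] at h1
  rw [cmpt_apply]
  refine Eq.trans (Finset.sum_congr rfl fun r _ => ?_) h1
  rw [cmpt_apply, EE_upd, EE_lift n P F (tM n α) hX]
  rfl

variable {n P F α}
variable (hϖ : ϖ ≠ 0)
  (hB : ∀ v : Fin (2 * k) → HW κ n, (∀ r, IsRatP n P (v r)) → ∃ q : ℚ, (tM n α) v = ϖ ^ k * q)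
  (hA : ∀ v : Fin (2 * k) → HW κ n, (∀ r i m j, IsAlgebraic ℚ (v r i m j)) →
      IsAlgebraic ℚ ((tM n α) v))
  (hun : UnLinked n P (GT P F) (tM n α))

open Classical in
/-- the frames -/
noncomputable def frS : FramesC (HW κ n) (At n K) (Σ i, (K i →+* ℂ))
    (Option (preU n P (GT P F) (tM n α) hϖ hB hA hun).CG) (gSub n P (tM n α)) :=
  (preU n P (GT P F) (tM n α) hϖ hB hA hun).toFrames

open Classical in
lemma frS_e (t : At n K) (q : At n K) (j : Fin 2) :
    EE n P F t ((frS hϖ hB hA hun).e q j) =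
      if q = t then (frS hϖ hB hA hun).e q j else 0 := by
  have h1 : (frS hϖ hB hA hun).e q j = ∑ a,
      ((preU n P (GT P F) (tM n α) hϖ hB hA hun).Qm
        ((preU n P (GT P F) (tM n α) hϖ hB hA hun).pl q))⁻¹ a j •
        slotL n q.1 q.2.1 ((F q.1).e q.2.2 a) := rfl
  rw [h1, map_sum]
  by_cases h : q = t
  · subst h
    rw [if_pos rfl]
    refine Finset.sum_congr rfl fun a _ => ?_
    rw [map_smul, EE_slot, if_pos rfl]
  · rw [if_neg h]
    refine Finset.sum_eq_zero fun a _ => ?_
    rw [map_smul, EE_slot, if_neg h, smul_zero]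

open Classical in
lemma cmpt_frS (p q : Fin (2 * k) → At n K) (j : Fin (2 * k) → Fin 2)
    (h : cmpt n P F α p (fun r => (frS hϖ hB hA hun).e (q r) (j r)) ≠ 0) :
    q = p ∧ (tM n α) (fun r => (frS hϖ hB hA hun).e (q r) (j r)) ≠ 0 := by
  rw [cmpt_apply] at h
  have h1 : q = p := by
    funext r
    by_contra hne
    apply h
    refine (tM n α).map_coord_zero r ?_
    show EE n P F (p r) ((frS hϖ hB hA hun).e (q r) (j r)) = 0
    rw [frS_e, if_neg hne]
  subst h1
  refine ⟨rfl, ?_⟩
  have h2 : (fun r => EE n P F (q r) ((frS hϖ hB hA hun).e (q r) (j r))) =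
      fun r => (frS hϖ hB hA hun).e (q r) (j r) := by
    funext r
    rw [frS_e, if_pos rfl]
  rw [h2] at h
  exact h

end family

end Pool.Agent.Helper24
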