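import Pool.Agent.Helper24.AF.HWeil
import Pool.Agent.Helper7.AF.Small

/-!
Endomorphisms of products of abelian varieties given by the factors.
-/

namespace Pool.Agent.Helper24

open Module NumberField Pool.Agent.Helper7 Pool.Agent.GPC Pool.Agent.Helper84

set_option linter.unusedSectionVars false

section product

variable {I : Type} [Fintype I] [DecidableEq I] (A : I → AbVar) (n : I → ℕ)

lemma betti_zero (B : AbVar) : B.IsBetti 0 := by
  rw [← mem_pData_Q]; exact Submodule.zero_mem _

/-- the index types of the coordinates -/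
abbrev kA (A : I → AbVar) : I → Type := fun i => Fin (A i).g ⊕ Fin (A i).g

lemma slot_apply_cases {X : ∀ i, (A i).H1 → Prop} (h0 : ∀ i, X i 0) (j : I) (m : Fin (n j))
    (v : (A j).H1) (hv : X j v) (i : I) (m' : Fin (n i)) :
    X i ((slotL (κ := kA A) n j m v) i m') := by
  by_cases hi : i = j
  · subst hi
    by_cases hm : m' = m
    · subst hm
      have h1 : (slotL (κ := kA A) n i m' v) i m' = v := prL_slotL (κ := kA A) n i m' v
      rw [h1]; exact hv
    · have h1 : (slotL (κ := kA A) n i m v) i m' = 0 := prL_slotL_ne (κ := kA A) n i m m' hm v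
      rw [h1]; exact h0 i
  · have h1 : (slotL (κ := kA A) n j m v) i m' = 0 := prL_slotL_ne' (κ := kA A) n j i m m' hi v
    rw [h1]; exact h0 i

/-- an endomorphism as linear map -/
def linE (f : H1 A n → H1 A n) (hf : IsEndo A n f) : Module.End ℂ (HW (kA A) n) :=
  IsLinearMap.mk' f hf.linear

/-- the components of an endomorphism -/
lemma endo_drb (f : H1 A n → H1 A n) (hf : IsEndo A n f) (i : I) (m : Fin (n i)) (j : I)
    (m' : Fin (n j)) : IsDRB (pData (A j)) (pData (A i))
      ((prL (κ := kA A) n i m) ∘ₗ linE A n f hf ∘ₗ slotL (κ := kA A) n j m') := by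
  refine (isDRB_iff (A j) (A i) _).mpr ⟨fun v hv => ?_, fun v hv => ?_⟩
  · exact hf.betti _ (slot_apply_cases A n (X := fun i v => (A i).IsBetti v)
      (fun i => betti_zero (A i)) j m' v hv) i m
  · exact hf.deRham _ (slot_apply_cases A n (X := fun i v => (A i).IsDeRham v)
      (fun i _ => isAlgebraic_zero) j m' v hv) i m

/-- endomorphisms of the factors -/
lemma endo_lift (g : ∀ i, Module.End ℂ (A i).H1)
    (hg : ∀ i, IsDRB (pData (A i)) (pData (A i)) (g i)) :
    IsEndo A n (lift (κ := kA A) n g) where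
  linear := (lift (κ := kA A) n g).isLinear
  betti _ hv i m := ((isDRB_iff _ _ _).mp (hg i)).1 _ (hv i m)
  deRham _ hv i m := ((isDRB_iff _ _ _).mp (hg i)).2 _ (hv i m)
  hodge _ hv i m := (isEnd_of_isDRB _ _ (hg i)).hodge _ (hv i m)

/-- an endomorphism which commutes with the homomorphisms between the factors is central -/
lemma lift_comm (g : ∀ i, Module.End ℂ (A i).H1)
    (hc : ∀ i j (h : (A j).H1 →ₗ[ℂ] (A i).H1), IsDRB (pData (A j)) (pData (A i)) h →
      ∀ v, h (g j v) = g i (h v)) (f : H1 A n → H1 A n) (hf : IsEndo A n f) (v : H1 A n) :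
    lift (κ := kA A) n g (f v) = f (lift (κ := kA A) n g v) := by
  have key : ∀ (w : H1 A n) i m, f w i m = ∑ j, ∑ m', ((prL (κ := kA A) n i m) ∘ₗ
        linE A n f hf ∘ₗ slotL (κ := kA A) n j m') (w j m') := by
    intro w i m
    have h1 : f w = ∑ j, ∑ m', linE A n f hf (slotL (κ := kA A) n j m' (w j m')) := by
      have h2 : f w = linE A n f hf w := rfl
      rw [h2]
      conv_lhs => rw [← sum_slot (κ := kA A) n w]
      rw [map_sum]
      exact Finset.sum_congr rfl fun j _ => map_sum _ _ _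
    rw [h1, Finset.sum_apply, Finset.sum_apply]
    refine Finset.sum_congr rfl fun j _ => ?_
    rw [Finset.sum_apply, Finset.sum_apply]
    rfl
  funext i m
  rw [lift_apply, key, key, map_sum]
  refine Finset.sum_congr rfl fun j _ => ?_
  rw [map_sum]
  refine Finset.sum_congr rfl fun m' _ => ?_
  rw [lift_apply]
  exact (hc i j _ (endo_drb A n f hf i m j m') (v j m')).symm

end product

section single

variable {A : AbVar} {K : Type} [Field K] [NumberField K]

/-- eigenvectors in the Hodge filtration with different eigenvalues at a mixed place -/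
lemma not_scalar (ρ : K →+* Module.End ℂ A.H1) (hρ : ∀ x, A.IsEnd (ρ x)) {σ : K →+* ℂ}
    (hσ : ¬ IsDefAt A ρ σ) {x : K} {d : ℚ} (hd : 0 < d) (hx : x * x = -(d : K)) :
    ∃ v w : A.H1, A.IsFil v ∧ A.IsFil w ∧ v ≠ 0 ∧ w ≠ 0 ∧
      ∀ c : ℂ, ¬ (ρ x v = c • v ∧ ρ x w = c • w) := by
  have hcc : ComplexEmbedding.conjugate (ComplexEmbedding.conjugate σ) = σ := by
    ext x; simp
  have hσ' : ¬ IsDefAt A ρ (ComplexEmbedding.conjugate σ) := fun h => hσ (by
    have := defAt_conj ρ hρ h
    rwa [hcc] at this)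
  have hex : ∀ τ : K →+* ℂ, ¬ IsDefAt A ρ τ → ∃ v, A.IsFil (proj ρ τ v) ∧ proj ρ τ v ≠ 0 := by
    intro τ hτ
    by_contra hcon
    push Not at hcon
    exact hτ (Or.inr hcon)
  obtain ⟨v, hv, hv0⟩ := hex σ hσ
  obtain ⟨w, hw, hw0⟩ := hex _ hσ'
  refine ⟨_, _, hv, hw, hv0, hw0, ?_⟩
  rintro c ⟨h1, h2⟩
  have e1 : ρ x (proj ρ σ v) = σ x • proj ρ σ v :=
    LinearMap.congr_fun (rho_mul_proj ρ x σ) v
  have e2 : ρ x (proj ρ (ComplexEmbedding.conjugate σ) w) =
      ComplexEmbedding.conjugate σ x • proj ρ (ComplexEmbedding.conjugate σ) w :=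
    LinearMap.congr_fun (rho_mul_proj ρ x _) w
  rw [e1] at h1
  rw [e2] at h2
  have h3 : σ x = c := smul_left_injective ℂ hv0 h1
  have h4 : ComplexEmbedding.conjugate σ x = c := smul_left_injective ℂ hw0 h2
  rw [ComplexEmbedding.conjugate_coe_eq, h3] at h4
  have h5 : c * c = -(d : ℂ) := by
    rw [← h3, ← map_mul, hx, map_neg, map_ratCast]
  have h6 : ((Complex.normSq c : ℝ) : ℂ) = -(d : ℂ) := by
    rw [← Complex.mul_conj, h4, h5]
  have h7 : (Complex.normSq c : ℝ) = -((d : ℚ) : ℝ) := by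
    have : ((Complex.normSq c : ℝ) : ℂ) = ((-((d : ℚ) : ℝ) : ℝ) : ℂ) := by
      rw [h6]; push_cast; ring
    exact_mod_cast this
  have h8 := Complex.normSq_nonneg c
  have h9 : (0 : ℝ) < ((d : ℚ) : ℝ) := by exact_mod_cast hd
  linarith

end single

end Pool.Agent.Helper24
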