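import Pool.Agent.Helper24.AF.HComp

/-!
An alternating form on a factor of rank two over a CM field of degree four is in the span of
products of invariant pairings and of forms which are linear over an imaginary quadratic element.
-/

namespace Pool.Agent.Helper24

open Module NumberField Pool.Agent.Helper7

set_option linter.unusedSectionVars false

section family

variable {I : Type} [Fintype I] [DecidableEq I] (n : I → ℕ)
  {κ : I → Type} [∀ i, Fintype (κ i)] [∀ i, DecidableEq (κ i)] {ϖ : ℂ}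
  (P : ∀ i, PData (κ i) ϖ)
  {K : I → Type} [∀ i, Field (K i)] [∀ i, NumberField (K i)]
  (F : ∀ i, UF (P i) (K i) 2)
  {k : ℕ} (α : (HW κ n) [⋀^Fin (2 * k)]→ₗ[ℂ] ℂ)

/-- products of invariant pairings -/
def BSet : Set (MultilinearMap ℂ (fun _ : Fin (2 * k) => HW κ n) ℂ) :=
  {M | ∃ (π : Equiv.Perm (Fin (2 * k))) (β : Fin k → (HW κ n →ₗ[ℂ] HW κ n →ₗ[ℂ] ℂ)),
    (∀ a, β a ∈ invB n P (tM n α)) ∧ M = (prodBilin β).domDomCongr π}

/-- forms which are linear over an imaginary quadratic element -/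
def JSet (k : ℕ) : Set (MultilinearMap ℂ (fun _ : Fin (2 * k) => HW κ n) ℂ) :=
  {M | k = 2 ∧ ∃ (x : ∀ i, K i) (d : ℚ), 0 < d ∧ (∀ i, x i * x i = -(d : K i)) ∧
    ∀ v r s, M (Function.update v r (lift n (fun i => (F i).ρ (x i)) (v r))) =
      M (Function.update v s (lift n (fun i => (F i).ρ (x i)) (v s)))}

/-- the number of slots at a place -/
noncomputable def cnt (p : Fin (2 * k) → At n K) (t : Σ i, (K i →+* ℂ)) : ℕ :=
  open Classical in (Finset.univ.filter (fun r => pl n (p r) = t)).card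

variable {n P F α}
variable (hϖ : ϖ ≠ 0)
  (hB : ∀ v : Fin (2 * k) → HW κ n, (∀ r, IsRatP n P (v r)) → ∃ q : ℚ, tM n α v = ϖ ^ k * q)
  (hA : ∀ v : Fin (2 * k) → HW κ n, (∀ r i m j, IsAlgebraic ℚ (v r i m j)) →
      IsAlgebraic ℚ (tM n α v))
  (hun : UnLinked n P (GT P F) (tM n α))

/-- the relation given by a component -/
lemma rel_of (p : Fin (2 * k) → At n K)
    (hp : ∀ X, IsInv n P (tM n α) X → ∑ r, wtU P (GT P F) (pl n (p r)) X = k * X.2) :
    (fun t => (cnt n p t : ℚ) - cnt n p (conjT t)) ∈ relU n P (GT P F) (tM n α) := by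
  classical
  rw [mem_relU]
  refine ⟨fun t => ?_, fun X hX _ => ?_⟩
  · simp only [conjT_conjT]; ring
  · have hcnt : ∀ t, cnt n p t = (Finset.univ.filter (fun r => pl n (p r) = t)).card := by
      intro t; unfold cnt; congr
    have h1 : ∀ (g : (Σ i, (K i →+* ℂ)) → ℂ),
        ∑ t, (cnt n p t : ℂ) * g t = ∑ r, g (pl n (p r)) := by
      intro g
      have h2 : ∀ t, (cnt n p t : ℂ) * g t = ∑ r, (if pl n (p r) = t then g t else 0) := by
        intro t
        rw [hcnt, Finset.card_filter]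
        push_cast
        rw [Finset.sum_mul]
        exact Finset.sum_congr rfl fun r _ => by split_ifs <;> simp
      simp only [h2]
      rw [Finset.sum_comm]
      refine Finset.sum_congr rfl fun r _ => ?_
      rw [Finset.sum_ite_eq Finset.univ]
      simp
    let cE : (Σ i, (K i →+* ℂ)) ≃ (Σ i, (K i →+* ℂ)) := ⟨conjT, conjT, conjT_conjT, conjT_conjT⟩
    have h3 : ∑ t, (cnt n p (conjT t) : ℂ) * wtU P (GT P F) t X =
        ∑ r, wtU P (GT P F) (conjT (pl n (p r))) X := by
      rw [← h1 (fun t => wtU P (GT P F) (conjT t) X)]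
      refine Fintype.sum_equiv cE _ _ fun t => ?_
      show _ = (cnt n p (conjT t) : ℂ) * wtU P (GT P F) (conjT (conjT t)) X
      rw [conjT_conjT]
    have h4 : ∑ r, wtU P (GT P F) (conjT (pl n (p r))) X = k * X.2 := by
      have h5 : ∑ r, (wtU P (GT P F) (pl n (p r)) X + wtU P (GT P F) (conjT (pl n (p r))) X) =
          ∑ _r : Fin (2 * k), X.2 :=
        Finset.sum_congr rfl fun r _ => wtU_conj n P (GT P F) (tM n α) (pl n (p r)) X hX
      rw [Finset.sum_add_distrib, hp X hX, Finset.sum_const, Finset.card_univ,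
        Fintype.card_fin, nsmul_eq_mul] at h5
      push_cast at h5
      linear_combination h5
    simp only [Rat.cast_sub, Rat.cast_natCast, sub_mul, Finset.sum_sub_distrib]
    rw [h1 (fun t => wtU P (GT P F) t X), h3, h4, hp X hX, sub_self]

include hun hϖ hB hA in
/-- balanced components -/
lemma cmpt_bal (p : Fin (2 * k) → At n K)
    (hb : (∀ X, IsInv n P (tM n α) X → ∑ r, wtU P (GT P F) (pl n (p r)) X = k * X.2) →
      ∀ t, cnt n p t = cnt n p (conjT t)) :
    cmpt n P F α p ∈ Submodule.span ℂ (BSet n P α) := by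
  classical
  have h1 := (frS hϖ hB hA hun).main_fft (cmpt n P F α p)
    (fun X v => cmpt_inv n P F α p X.1 X.2 v) (by
      rintro p' ⟨j, hj⟩ _ hp t _
      obtain ⟨rfl, -⟩ := cmpt_frS hϖ hB hA hun p p' j hj
      have h2 := hb (fun X hX => by
        refine Eq.trans (Finset.sum_congr rfl fun r _ => ?_) (hp ⟨X, hX⟩)
        obtain ⟨i, m, σ⟩ := p' r
        show wtU P (GT P F) ⟨i, σ⟩ X = _
        have hl : (GT P F i).isLeft := rfl
        rw [wtU, if_pos hl]
        refine Eq.trans ?_ (if_pos (show (frS hϖ hB hA hun).gl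
          ((frS hϖ hB hA hun).pl ⟨i, m, σ⟩) from hl)).symm
        show ((GT P F i).mat σ (X.1 i)).trace / 2 = X.2 / 2 + lamOf _ _ _
        rw [lamOf_apply]
        show ((GT P F i).mat σ (X.1 i)).trace / 2 = X.2 / 2 +
          (((GT P F i).mat σ (X.1 i)).trace - X.2) / 2
        ring) t
      unfold cnt at h2
      convert h2 using 2 <;>
      · ext r
        simp only [Finset.mem_filter]
        rfl)
  refine Submodule.span_mono ?_ h1
  rintro M ⟨π, β, hβ, hM⟩
  exact ⟨π, β, fun a X hX u v => hβ a ⟨X, hX⟩ u v, hM⟩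

lemma cnt_eq (p : Fin (2 * k) → At n K) (t : Σ i, (K i →+* ℂ))
    [DecidablePred fun r => pl n (p r) = t] :
    cnt n p t = (Finset.univ.filter (fun r => pl n (p r) = t)).card := by
  unfold cnt; congr

lemma cnt_pos (p : Fin (2 * k) → At n K) (r : Fin (2 * k)) : 0 < cnt n p (pl n (p r)) := by
  classical
  rw [cnt_eq]
  exact Finset.card_pos.mpr ⟨r, Finset.mem_filter.mpr ⟨Finset.mem_univ _, rfl⟩⟩

open Classical in
lemma exists_j (p : Fin (2 * k) → At n K) (hz : cmpt n P F α p ≠ 0) :
    ∃ j₀ : Fin (2 * k) → Fin 2, tM n α (fun r => (frS hϖ hB hA hun).e (p r) (j₀ r)) ≠ 0 := by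
  by_contra hcon
  push Not at hcon
  apply hz
  apply (frS hϖ hB hA hun).ext_e
  intro q j
  by_contra hne
  obtain ⟨rfl, h2⟩ := cmpt_frS hϖ hB hA hun p q j hne
  exact h2 (hcon j)

include hun hϖ hB hA in
/-- a non-zero component has at most two slots at a place -/
lemma cnt_le (hn : ∀ i, n i = 1) (p : Fin (2 * k) → At n K) (hz : cmpt n P F α p ≠ 0)
    (t : Σ i, (K i →+* ℂ)) : cnt n p t ≤ 2 := by
  classical
  obtain ⟨j₀, hj₀⟩ := exists_j hϖ hB hA hun p hz
  by_contra hcon
  rw [cnt_eq, not_le] at hcon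
  obtain ⟨x, hx, y, hy, hxy, hjj⟩ := Finset.exists_ne_map_eq_of_card_lt_of_maps_to
    (s := Finset.univ.filter (fun r => pl n (p r) = t))
    (t := (Finset.univ : Finset (Fin 2))) (by simpa using hcon) (f := j₀)
    (fun a _ => Finset.mem_coe.mpr (Finset.mem_univ _))
  apply hj₀
  refine α.map_eq_zero_of_eq _ ?_ hxy
  have hx' := (Finset.mem_filter.mp hx).2
  have hy' := (Finset.mem_filter.mp hy).2
  have hpp : p x = p y := by
    have h1 : pl n (p x) = pl n (p y) := hx'.trans hy'.symm
    rcases hpx : p x with ⟨i, m, σ⟩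
    rcases hpy : p y with ⟨i', m', σ'⟩
    rw [hpx, hpy] at h1
    have hi : i = i' := congrArg Sigma.fst h1
    subst hi
    have hσ : σ = σ' := sigma_mk_injective (β := fun i => (K i →+* ℂ)) h1
    subst hσ
    have hm : m = m' := by
      have h2 := m.2
      have h3 := m'.2
      have h4 := hn i
      exact Fin.ext (by omega)
    rw [hm]
  rw [hpp, hjj]

include hun hϖ hB hA in
/-- two conjugate places have together an even number of slots -/
lemma cnt_even (hc : ∀ t : Σ i, (K i →+* ℂ), conjT t ≠ t) (p : Fin (2 * k) → At n K)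
    (hz : cmpt n P F α p ≠ 0) (t : Σ i, (K i →+* ℂ)) : Even (cnt n p t + cnt n p (conjT t)) := by
  classical
  obtain ⟨j₀, hj₀⟩ := exists_j hϖ hB hA hun p hz
  have h1 := even_cls (frS hϖ hB hA hun) (tM n α) (fun X v => by
    have h2 := X.2.form
    have h3 := congrArg (fun g => g v) h2
    simp only [actForm_apply, _root_.smul_apply, smul_eq_mul] at h3
    exact h3) p j₀ hj₀ ((frS hϖ hB hA hun).cls t)
  have hgl : ∀ t, (frS hϖ hB hA hun).gl t := fun t => rfl
  have h2 : ((frS hϖ hB hA hun).glSlots p).filter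
      (fun r => (frS hϖ hB hA hun).cls ((frS hϖ hB hA hun).pl (p r)) =
        (frS hϖ hB hA hun).cls t) =
      (Finset.univ.filter (fun r => pl n (p r) = t)) ∪
        (Finset.univ.filter (fun r => pl n (p r) = conjT t)) := by
    ext r
    rw [Finset.mem_filter, FramesC.mem_glSlots, Finset.mem_union, Finset.mem_filter,
      Finset.mem_filter]
    constructor
    · rintro ⟨-, h⟩
      rcases (frS hϖ hB hA hun).cls_un t (pl n (p r)) (hgl t) (hc t) h.symm with h' | h'
      · exact Or.inl ⟨Finset.mem_univ _, h'⟩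
      · exact Or.inr ⟨Finset.mem_univ _, h'⟩
    · rintro (⟨-, h⟩ | ⟨-, h⟩)
      · refine ⟨hgl _, ?_⟩
        show (frS hϖ hB hA hun).cls (pl n (p r)) = _
        rw [h]
      · refine ⟨hgl _, ?_⟩
        show (frS hϖ hB hA hun).cls (pl n (p r)) = _
        rw [h]
        exact (frS hϖ hB hA hun).cls_cj t (hgl t)
  rw [h2, Finset.card_union_of_disjoint] at h1
  · rw [cnt_eq, cnt_eq]; exact h1
  · rw [Finset.disjoint_left]
    intro r hr hr'
    exact hc t ((Finset.mem_filter.mp hr').2.symm.trans (Finset.mem_filter.mp hr).2)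

include hun hϖ hB hA in
/-- the components -/
theorem cmpt_mem (H : Four P F) (hE : ∀ s : Σ i, (K i →+* ℂ), ∃ t, t ≠ s ∧ t ≠ conjT s)
    (hn : ∀ i, n i = 1) (p : Fin (2 * k) → At n K) :
    cmpt n P F α p ∈ Submodule.span ℂ (BSet n P α ∪ JSet n P F k) := by
  classical
  by_cases hz : cmpt n P F α p = 0
  · rw [hz]; exact Submodule.zero_mem _
  by_cases hb : (∀ X, IsInv n P (tM n α) X → ∑ r, wtU P (GT P F) (pl n (p r)) X = k * X.2) →
      ∀ t, cnt n p t = cnt n p (conjT t)
  · exact Submodule.span_mono Set.subset_union_left (cmpt_bal hϖ hB hA hun p hb)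
  push Not at hb
  obtain ⟨hrel, t0, ht0⟩ := hb
  obtain ⟨u, hu⟩ : ∃ u : (Σ i, (K i →+* ℂ)) → ℚ, u =
    fun t => (cnt n p t : ℚ) - cnt n p (conjT t) := ⟨_, rfl⟩
  have huR : u ∈ relU n P (GT P F) (tM n α) := by rw [hu]; exact rel_of p hrel
  have hut : ∀ t, u t = (cnt n p t : ℚ) - cnt n p (conjT t) := fun t => by rw [hu]
  have hle := cnt_le hϖ hB hA hun hn p hz
  have hev := cnt_even hϖ hB hA hun H.conj p hz
  have hzero : ∀ t, cnt n p (conjT t) < cnt n p t → cnt n p t = 2 ∧ cnt n p (conjT t) = 0 := by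
    intro t ht
    have h1 := hle t
    have h2 := hev t
    obtain ⟨c, hc⟩ := h2
    omega
  obtain ⟨t1, ht1⟩ : ∃ t1, cnt n p (conjT t1) < cnt n p t1 := by
    rcases Nat.lt_or_gt_of_ne ht0 with h | h
    · exact ⟨conjT t0, by rw [conjT_conjT]; exact h⟩
    · exact ⟨t0, h⟩
  have ht1' := hzero t1 ht1
  have hu1 : u t1 = 2 := by
    rw [hut, ht1'.1, ht1'.2]; norm_num
  have habs : ∀ t, u t ^ 2 = 4 := by
    intro t
    rw [relU_abs n P F (tM n α) hϖ hB hA H u huR t t1, hu1]; norm_num
  have hall : ∀ t, (cnt n p t = 2 ∧ cnt n p (conjT t) = 0) ∨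
      (cnt n p t = 0 ∧ cnt n p (conjT t) = 2) := by
    intro t
    have hne : cnt n p t ≠ cnt n p (conjT t) := by
      intro h
      have h1 := habs t
      rw [hut, h, sub_self] at h1
      norm_num at h1
    rcases Nat.lt_or_gt_of_ne hne with h | h
    · right
      have h1 := hzero (conjT t) (by rw [conjT_conjT]; exact h)
      rw [conjT_conjT] at h1
      exact ⟨h1.2, h1.1⟩
    · exact Or.inl (hzero t h)
  -- the number of slots
  have hk : k = 2 := by
    obtain ⟨t2, h21, h22⟩ := hE t1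
    have hcov := H.cov t1 t2
    have huniv : (Finset.univ : Finset (Σ i, (K i →+* ℂ))) = {t1, conjT t1, t2, conjT t2} := by
      ext t
      simp only [Finset.mem_univ, Finset.mem_insert, Finset.mem_singleton, true_iff]
      exact hcov t h21 h22
    have hsum : Fintype.card (Fin (2 * k)) = ∑ t, cnt n p t := by
      rw [← Finset.card_univ, Finset.card_eq_sum_card_fiberwise
        (f := fun r => pl n (p r)) (t := Finset.univ) (fun _ _ => Finset.mem_coe.mpr
          (Finset.mem_univ _))]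
      exact Finset.sum_congr rfl fun t _ => (cnt_eq p t).symm
    have n1 : conjT t2 ≠ t1 := fun h => h22 (by rw [← h, conjT_conjT])
    have n2 : conjT t2 ≠ conjT t1 := fun h => h21 (by rw [← conjT_conjT t2, h, conjT_conjT])
    rw [huniv, Finset.sum_insert (by
        simp only [Finset.mem_insert, Finset.mem_singleton, not_or]
        exact ⟨(H.conj t1).symm, h21.symm, n1.symm⟩),
      Finset.sum_insert (by
        simp only [Finset.mem_insert, Finset.mem_singleton, not_or]
        exact ⟨h22.symm, n2.symm⟩),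
      Finset.sum_pair (H.conj t2).symm, Fintype.card_fin] at hsum
    have h3 := hall t2
    omega
  obtain ⟨x, d, c, hd, hx, hc⟩ := exists_J n P F (tM n α) hϖ hB hA H u huR t1 (by
    rw [hu1]; norm_num)
  refine Submodule.subset_span (Or.inr ⟨hk, x, d, hd, hx, fun v r s => ?_⟩)
  have hslot : ∀ r, (pl n (p r)).2 (x (pl n (p r)).1) = c := by
    intro r
    apply hc
    have h1 := cnt_pos p r
    rcases hall (pl n (p r)) with h2 | h2
    · rw [hut, h2.1, h2.2, hu1]; norm_num
    · omega
  have hEE : ∀ r (w : HW κ n), EE n P F (p r) (lift n (fun i => (F i).ρ (x i)) w) =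
      c • EE n P F (p r) w := by
    intro r w
    rw [EE_apply, EE_apply, lift_apply, (F (p r).1).proj_rho, map_smul]
    congr 1
    exact hslot r
  have key : ∀ r, cmpt n P F α p (Function.update v r
      (lift n (fun i => (F i).ρ (x i)) (v r))) = c * cmpt n P F α p v := by
    intro r
    rw [cmpt_apply, cmpt_apply, EE_upd, hEE, AlternatingMap.map_update_smul, smul_eq_mul]
    congr 2
    exact Function.update_eq_self r (fun r' => EE n P F (p r') (v r'))
  rw [key, key]

include hun hϖ hB hA in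
/-- the form -/
theorem form_mem (H : Four P F) (hE : ∀ s : Σ i, (K i →+* ℂ), ∃ t, t ≠ s ∧ t ≠ conjT s)
    (hn : ∀ i, n i = 1) :
    tM n α ∈ Submodule.span ℂ (BSet n P α ∪ JSet n P F k) := by
  show (α : MultilinearMap ℂ (fun _ : Fin (2 * k) => HW κ n) ℂ) ∈ _
  rw [sum_cmpt n P F α]
  exact Submodule.sum_mem _ fun p _ => cmpt_mem hϖ hB hA hun H hE hn p

end family

end Pool.Agent.Helper24
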