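import Pool.Agent.Helper7.Eigen
import Pool.Agent.Helper84.AutC

/-!
An odd function with values `±1` on the complex embeddings of number fields which is stable under
the automorphisms of `ℂ` up to signs comes from elements with the same negative rational square.
-/

namespace Pool.Agent.Helper24

open Module NumberField Pool.Agent.Helper7

/-- composition with an automorphism of `ℂ` -/
def compE {K : Type} [Field K] (g : ℂ ≃+* ℂ) : (K →+* ℂ) ≃ (K →+* ℂ) where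
  toFun σ := (g : ℂ →+* ℂ).comp σ
  invFun σ := (g.symm : ℂ →+* ℂ).comp σ
  left_inv σ := by
    ext x
    simp
  right_inv σ := by
    ext x
    simp

theorem exists_quad {I : Type} (i₀ : I) (K : I → Type) [∀ i, Field (K i)]
    [∀ i, NumberField (K i)] (ε : (Σ i, (K i →+* ℂ)) → ℚ) (h1 : ∀ t, ε t ^ 2 = 1)
    (hodd : ∀ i (σ : K i →+* ℂ), ε ⟨i, ComplexEmbedding.conjugate σ⟩ = - ε ⟨i, σ⟩)
    (hg : ∀ g : ℂ ≃+* ℂ, ∃ c : ℚ, c ^ 2 = 1 ∧
      ∀ i (σ : K i →+* ℂ), ε ⟨i, (g : ℂ →+* ℂ).comp σ⟩ = c * ε ⟨i, σ⟩) :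
    ∃ (x : ∀ i, K i) (d : ℚ) (c : ℂ), 0 < d ∧ (∀ i, x i * x i = -(d : K i)) ∧
      c * c = -(d : ℂ) ∧ ∀ i (σ : K i →+* ℂ), σ (x i) = c * (ε ⟨i, σ⟩ : ℂ) := by
  classical
  obtain ⟨y, hy⟩ : ∃ y : ∀ i, Fin (finrank ℚ (K i)) → ℂ, ∀ i b, y i b =
      ∑ σ : K i →+* ℂ, (ε ⟨i, σ⟩ : ℂ) * σ (dbas (K i) b) := ⟨_, fun _ _ => rfl⟩
  have hrec : ∀ i (τ : K i →+* ℂ), ∑ b, y i b * τ (bas (K i) b) = ε ⟨i, τ⟩ := by
    intro i τ
    simp only [hy, Finset.sum_mul]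
    rw [Finset.sum_comm]
    have h2 : ∀ σ : K i →+* ℂ, ∑ b, (ε ⟨i, σ⟩ : ℂ) * σ (dbas (K i) b) * τ (bas (K i) b) =
        if σ = τ then (ε ⟨i, σ⟩ : ℂ) else 0 := by
      intro σ
      simp only [mul_assoc, ← Finset.mul_sum, sum_dbas_bas]
      split_ifs <;> simp
    rw [Finset.sum_congr rfl fun σ _ => h2 σ, Finset.sum_ite_eq' Finset.univ τ]
    simp
  have hε : ∀ t, ε t ≠ 0 := by
    intro t h0
    have := h1 t
    rw [h0] at this
    norm_num at this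
  have σ₀ : K i₀ →+* ℂ := Classical.choice (inferInstance : Nonempty (K i₀ →+* ℂ))
  obtain ⟨b₀, hb₀⟩ : ∃ b, y i₀ b ≠ 0 := by
    by_contra hcon
    push Not at hcon
    have h2 := hrec i₀ σ₀
    simp only [hcon, zero_mul, Finset.sum_const_zero] at h2
    exact hε ⟨i₀, σ₀⟩ (by exact_mod_cast h2.symm)
  have hgy : ∀ g : ℂ ≃+* ℂ, ∃ c : ℚ, c ^ 2 = 1 ∧ ∀ i b, g (y i b) = c * y i b := by
    intro g
    obtain ⟨c, hc1, hc2⟩ := hg g
    refine ⟨c, hc1, fun i b => ?_⟩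
    rw [hy, map_sum, Finset.mul_sum]
    refine Fintype.sum_equiv (compE g) _ _ fun σ => ?_
    have h2 := hc2 i σ
    show g ((ε ⟨i, σ⟩ : ℂ) * σ (dbas (K i) b)) = (c : ℂ) *
      ((ε ⟨i, (g : ℂ →+* ℂ).comp σ⟩ : ℂ) * g (σ (dbas (K i) b)))
    rw [map_mul, map_ratCast, h2, Rat.cast_mul, ← mul_assoc, ← mul_assoc]
    have h3 : (c : ℂ) * c = 1 := by
      have : c * c = 1 := by rw [← sq]; exact hc1
      exact_mod_cast this
    rw [h3, one_mul]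
  have halg : ∀ i b, IsAlgebraic ℚ (y i b) := by
    intro i b
    rw [hy]
    refine Finset.sum_induction _ (IsAlgebraic ℚ) (fun a b ha hb => ha.add hb) isAlgebraic_zero
      fun σ _ => IsAlgebraic.mul (isAlgebraic_algebraMap _) ?_
    have := (Algebra.IsAlgebraic.isAlgebraic (R := ℚ) (dbas (K i) b))
    exact this.algHom (σ.toRatAlgHom)
  have hq : ∀ i b, ∃ q : ℚ, (q : ℂ) = y i b / y i₀ b₀ := by
    intro i b
    refine Helper84.rational_of_fixed _ ((halg i b).mul (halg i₀ b₀).inv) fun g => ?_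
    obtain ⟨c, hc1, hc2⟩ := hgy g
    have hc0 : (c : ℂ) ≠ 0 := by
      intro h0
      have : c = 0 := by exact_mod_cast h0
      rw [this] at hc1; norm_num at hc1
    rw [map_div₀, hc2, hc2, mul_div_mul_left _ _ hc0]
  choose q hq using hq
  obtain ⟨e, he⟩ : ∃ e : ℚ, (e : ℂ) = y i₀ b₀ * y i₀ b₀ := by
    refine Helper84.rational_of_fixed _ ((halg i₀ b₀).mul (halg i₀ b₀)) fun g => ?_
    obtain ⟨c, hc1, hc2⟩ := hgy g
    have h3 : (c : ℂ) * c = 1 := by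
      have : c * c = 1 := by rw [← sq]; exact hc1
      exact_mod_cast this
    rw [map_mul, hc2]
    linear_combination (y i₀ b₀ * y i₀ b₀) * h3
  have hx : ∀ i (σ : K i →+* ℂ), σ (∑ b, q i b • bas (K i) b) =
      (y i₀ b₀)⁻¹ * (ε ⟨i, σ⟩ : ℂ) := by
    intro i σ
    rw [← hrec i σ, Finset.mul_sum, map_sum]
    refine Finset.sum_congr rfl fun b _ => ?_
    rw [Rat.smul_def, map_mul, map_ratCast, hq]
    ring
  obtain ⟨c, hc⟩ : ∃ c, c = (y i₀ b₀)⁻¹ := ⟨_, rfl⟩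
  have hc0 : c ≠ 0 := by rw [hc]; exact inv_ne_zero hb₀
  have hcc : c * c = ((e⁻¹ : ℚ) : ℂ) := by
    rw [Rat.cast_inv, he, hc, mul_inv]
  have hstar : starRingEnd ℂ c = - c := by
    have h2 := hx i₀ (ComplexEmbedding.conjugate σ₀)
    rw [ComplexEmbedding.conjugate_coe_eq, hx i₀ σ₀, hodd, ← hc, map_mul] at h2
    have h3 : starRingEnd ℂ (ε ⟨i₀, σ₀⟩ : ℂ) = (ε ⟨i₀, σ₀⟩ : ℂ) := map_ratCast _ _
    rw [h3, Rat.cast_neg, mul_neg, ← neg_mul] at h2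
    exact mul_right_cancel₀ (by exact_mod_cast hε _) h2
  have hd : ((-e⁻¹ : ℚ) : ℂ) = ((Complex.normSq c : ℝ) : ℂ) := by
    rw [← Complex.mul_conj, hstar, mul_neg, hcc, Rat.cast_neg]
  have hd' : 0 < (-e⁻¹ : ℚ) := by
    have h2 : (((-e⁻¹ : ℚ) : ℝ) : ℂ) = ((Complex.normSq c : ℝ) : ℂ) := by
      rw [← hd]; push_cast; ring
    have h3 : ((-e⁻¹ : ℚ) : ℝ) = Complex.normSq c := by exact_mod_cast h2
    have h4 := Complex.normSq_pos.mpr hc0
    rw [← h3] at h4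
    exact_mod_cast h4
  refine ⟨fun i => ∑ b, q i b • bas (K i) b, -e⁻¹, c, hd', fun i => ?_, ?_, fun i σ => ?_⟩
  · have σ : K i →+* ℂ := Classical.choice (inferInstance : Nonempty (K i →+* ℂ))
    apply σ.injective
    have h2 : ((ε ⟨i, σ⟩ : ℂ)) * (ε ⟨i, σ⟩ : ℂ) = 1 := by
      have := h1 ⟨i, σ⟩
      rw [sq] at this
      exact_mod_cast this
    rw [map_mul, hx, ← hc, map_neg, map_ratCast]
    rw [Rat.cast_neg, neg_neg, ← hcc]
    linear_combination c * c * h2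
  · rw [hcc, Rat.cast_neg, neg_neg]
  · rw [hx, ← hc]

end Pool.Agent.Helper24
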