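import Pool.Agent.Helper7.U.Sgn
import Pool.Agent.Helper24.AF.QuadElem

/-!
Relations between the weights of a factor of rank two over a CM field of degree four.
-/

namespace Pool.Agent.Helper24

open Module NumberField Pool.Agent.Helper7

set_option linter.unusedSectionVars false

section single

variable {κ : Type} [Fintype κ] [DecidableEq κ] {ϖ : ℂ} {P : PData κ ϖ} {K : Type} [Field K]
    [NumberField K] {r : ℕ} (F : UF P K r)

lemma drb_comp {κ' κ'' : Type} [Fintype κ'] [DecidableEq κ'] [Fintype κ''] [DecidableEq κ'']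
    {P' : PData κ' ϖ} {P'' : PData κ'' ϖ} {f : (κ → ℂ) →ₗ[ℂ] (κ' → ℂ)}
    {g : (κ' → ℂ) →ₗ[ℂ] (κ'' → ℂ)} (hf : IsDRB P P' f) (hg : IsDRB P' P'' g) :
    IsDRB P P'' (g ∘ₗ f) where
  rat v hv := hg.rat _ (hf.rat v hv)
  alg i j := by
    have h1 : f (Pi.single i 1) = ∑ l, f (Pi.single i 1) l • (Pi.single l 1 : κ' → ℂ) := by
      conv_lhs => rw [← (Pi.basisFun ℂ κ').sum_repr (f (Pi.single i 1))]
      simp
    rw [LinearMap.comp_apply, h1, map_sum, Finset.sum_apply]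
    refine Finset.sum_induction _ (IsAlgebraic ℚ) (fun a b ha hb => ha.add hb) isAlgebraic_zero
      fun l _ => ?_
    rw [map_smul, Pi.smul_apply, smul_eq_mul]
    exact (hf.alg i l).mul (hg.alg l j)

lemma drb_sum {ι : Type*} (s : Finset ι) (f : ι → Module.End ℂ (κ → ℂ))
    (hf : ∀ b ∈ s, IsDRB P P (f b)) : IsDRB P P (∑ b ∈ s, f b) where
  rat v hv := by
    rw [LinearMap.sum_apply]
    exact Submodule.sum_mem _ fun b hb => (hf b hb).rat v hv
  alg i j := by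
    rw [LinearMap.sum_apply, Finset.sum_apply]
    classical
    induction s using Finset.induction_on with
    | empty => simpa using isAlgebraic_zero
    | insert b s hb ih =>
      rw [Finset.sum_insert hb]
      exact ((hf b (Finset.mem_insert_self _ _)).alg i j).add
        (ih fun c hc => hf c (Finset.mem_insert_of_mem hc))

/-- the conjugate-linear part of an endomorphism -/
noncomputable def anti (f : Module.End ℂ (κ → ℂ)) : Module.End ℂ (κ → ℂ) :=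
  ∑ b, F.ρ (F.cc (dbas K b)) * f * F.ρ (bas K b)

lemma anti_e (f : Module.End ℂ (κ → ℂ)) (τ : K →+* ℂ) (j : Fin r) :
    anti F f (F.e τ j) = proj F.ρ (ComplexEmbedding.conjugate τ) (f (F.e τ j)) := by
  classical
  obtain ⟨w, hw⟩ : ∃ w, w = f (F.e τ j) := ⟨_, rfl⟩
  have h1 : ∀ b, (F.ρ (F.cc (dbas K b)) * f * F.ρ (bas K b)) (F.e τ j) =
      ∑ σ, ((ComplexEmbedding.conjugate σ) (dbas K b) * τ (bas K b)) • proj F.ρ σ w := by
    intro b
    rw [Module.End.mul_apply, Module.End.mul_apply, F.rho_e, map_smul, map_smul, ← hw,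
      rho_eq_sum F.ρ (F.cc (dbas K b)), LinearMap.sum_apply, Finset.smul_sum]
    refine Finset.sum_congr rfl fun σ _ => ?_
    rw [LinearMap.smul_apply, smul_smul, F.hcc, ComplexEmbedding.conjugate_coe_eq, mul_comm]
  rw [anti, LinearMap.sum_apply, Finset.sum_congr rfl fun b _ => h1 b, Finset.sum_comm]
  simp only [← Finset.sum_smul, sum_dbas_bas]
  rw [Finset.sum_eq_single (ComplexEmbedding.conjugate τ)]
  · have h2 : ComplexEmbedding.conjugate (ComplexEmbedding.conjugate τ) = τ :=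
      RingHom.ext fun x => by
        rw [ComplexEmbedding.conjugate_coe_eq, ComplexEmbedding.conjugate_coe_eq,
          Complex.conj_conj]
    rw [if_pos h2, one_smul, hw]
  · intro σ _ hσ
    rw [if_neg, zero_smul]
    intro h
    apply hσ
    rw [← h]
    exact (RingHom.ext fun x => by
        rw [ComplexEmbedding.conjugate_coe_eq, ComplexEmbedding.conjugate_coe_eq,
          Complex.conj_conj])
  · intro h; exact absurd (Finset.mem_univ _) h

lemma anti_drb {f : Module.End ℂ (κ → ℂ)} (hf : IsDRB P P f) : IsDRB P P (anti F f) :=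
  drb_sum _ _ fun b _ => drb_comp (F.hρ (bas K b)) (drb_comp hf (F.hρ (F.cc (dbas K b))))

lemma anti_real (f : Module.End ℂ (κ → ℂ)) (x : K) (hx : F.cc x = x) (v : κ → ℂ) :
    anti F f (F.ρ x v) = F.ρ x (anti F f v) := by
  refine F.ext_e (anti F f ∘ₗ F.ρ x) (F.ρ x ∘ₗ anti F f) (fun τ j => ?_) v
  have h1 : F.ρ x (proj F.ρ (ComplexEmbedding.conjugate τ) (f (F.e τ j))) =
      ComplexEmbedding.conjugate τ x • proj F.ρ (ComplexEmbedding.conjugate τ) (f (F.e τ j)) :=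
    LinearMap.congr_fun (rho_mul_proj F.ρ x (ComplexEmbedding.conjugate τ)) (f (F.e τ j))
  rw [LinearMap.comp_apply, LinearMap.comp_apply, F.rho_e, map_smul, anti_e, h1,
    ComplexEmbedding.conjugate_coe_eq, ← F.hcc, hx]

/-- endomorphisms do not pair a complex place with itself -/
theorem psi_end_zero (hcen : ∀ f, IsDRB P P f → (∀ x, F.cc x = x → ∀ v, f (F.ρ x v) =
    F.ρ x (f v)) → ∃ x, ∀ v, f v = F.ρ x v) {f : Module.End ℂ (κ → ℂ)} (hf : IsDRB P P f)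
    {σ : K →+* ℂ} (hσ : ComplexEmbedding.conjugate σ ≠ σ) (a b : Fin r) :
    P.ψ (f (F.e σ a)) (F.e σ b) = 0 := by
  classical
  obtain ⟨z, hz⟩ := hcen _ (anti_drb F hf) (fun x hx v => anti_real F f x hx v)
  have h1 := hz (F.e σ a)
  rw [anti_e, F.rho_e] at h1
  have h2 := congrArg (proj F.ρ (ComplexEmbedding.conjugate σ)) h1
  rw [← Module.End.mul_apply, proj_mul_proj, if_pos rfl, map_smul, F.proj_e, if_neg hσ,
    smul_zero] at h2
  rw [F.hsum (f (F.e σ a)), map_sum, LinearMap.sum_apply]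
  refine Finset.sum_eq_zero fun τ _ => ?_
  rw [map_sum, LinearMap.sum_apply]
  refine Finset.sum_eq_zero fun c _ => ?_
  rw [map_smul, LinearMap.smul_apply]
  by_cases hτ : σ = ComplexEmbedding.conjugate τ
  · have hτ' : τ = ComplexEmbedding.conjugate σ := by
      rw [hτ]
      exact (RingHom.ext fun x => by
        rw [ComplexEmbedding.conjugate_coe_eq, ComplexEmbedding.conjugate_coe_eq,
          Complex.conj_conj])
    have h3 : F.co τ c (f (F.e σ a)) = F.co τ c (proj F.ρ τ (f (F.e σ a))) := by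
      rw [F.proj_eq, map_sum, Finset.sum_eq_single c]
      · rw [map_smul, F.co_e, if_pos ⟨rfl, rfl⟩, smul_eq_mul, mul_one]
      · intro d _ hd
        rw [map_smul, F.co_e, if_neg (fun h => hd h.2.symm), smul_zero]
      · intro h; exact absurd (Finset.mem_univ _) h
    rw [h3, hτ', h2, map_zero, zero_smul]
  · rw [F.psi_e τ σ c b hτ, smul_zero]

end single

section family

variable {I : Type} [Fintype I] [DecidableEq I] (n : I → ℕ)
  {κ : I → Type} [∀ i, Fintype (κ i)] [∀ i, DecidableEq (κ i)] {ϖ : ℂ}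
  (P : ∀ i, PData (κ i) ϖ)
  {K : I → Type} [∀ i, Field (K i)] [∀ i, NumberField (K i)]
  (F : ∀ i, UF (P i) (K i) 2)
  {k : ℕ} (α : MultilinearMap ℂ (fun _ : Fin (2 * k) => HW κ n) ℂ)

/-- the factors of rank two as factors of rank two or of CM type -/
def GT (i : I) : FT (P i) (K i) := .inl (F i)

variable (hϖ : ϖ ≠ 0)
  (hB : ∀ v : Fin (2 * k) → HW κ n, (∀ r, IsRatP n P (v r)) → ∃ q : ℚ, α v = ϖ ^ k * q)
  (hA : ∀ v : Fin (2 * k) → HW κ n, (∀ r i m j, IsAlgebraic ℚ (v r i m j)) →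
      IsAlgebraic ℚ (α v))

include hϖ hB hA in
/-- the mean weight at a complex place is not half of the multiplier -/
lemma trace_ne (i : I) (hcen : ∀ f, IsDRB (P i) (P i) f → (∀ x, (F i).cc x = x → ∀ v,
    f ((F i).ρ x v) = (F i).ρ x (f v)) → ∃ x, ∀ v, f v = (F i).ρ x v) (σ₀ : K i →+* ℂ)
    (hσ₀ : ComplexEmbedding.conjugate σ₀ ≠ σ₀) :
    ¬ ∀ X, IsInv n P α X → IsRatl P X → wtU P (GT P F) ⟨i, σ₀⟩ X = X.2 / 2 := by
  intro hwt
  have hl : (GT P F i).isLeft := rfl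
  have htr : ∀ X, IsInv n P α X → ((GT P F i).mat σ₀ (X.1 i)).trace = X.2 := by
    intro X hX
    have h1 := lin_of_rat n P α hϖ hB
      ((Matrix.traceLinearMap (Fin 2) ℂ ℂ) ∘ₗ ((GT P F i).mat σ₀) ∘ₗ (LinearMap.proj i) ∘ₗ
        (LinearMap.fst ℂ ((i : I) → Module.End ℂ (κ i → ℂ)) ℂ) -
        (LinearMap.snd ℂ ((i : I) → Module.End ℂ (κ i → ℂ)) ℂ)) (fun X hX hr => by
        have h2 := hwt X hX hr
        rw [wtU, if_pos hl] at h2
        show ((GT P F i).mat σ₀ (X.1 i)).trace - X.2 = 0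
        linear_combination 2 * h2) X hX
    exact sub_eq_zero.mp h1
  obtain ⟨m, c, f, hf, hβ⟩ := bilin_of_inv n P α hϖ hB hA i i
    ((LinearMap.mul ℂ ℂ).compl₁₂ ((GT P F i).co σ₀ 0) ((GT P F i).co σ₀ 1) -
      (LinearMap.mul ℂ ℂ).compl₁₂ ((GT P F i).co σ₀ 1) ((GT P F i).co σ₀ 0)) (by
      intro X hX u v
      have h1 := htr X hX
      rw [Matrix.trace_fin_two] at h1
      simp only [LinearMap.sub_apply, LinearMap.compl₁₂_apply, LinearMap.mul_apply']
      rw [(GT P F i).co_act (hX.commT n P (GT P F) α i) σ₀ 0 u (Or.inl hl),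
        (GT P F i).co_act (hX.commT n P (GT P F) α i) σ₀ 1 u (Or.inl hl),
        (GT P F i).co_act (hX.commT n P (GT P F) α i) σ₀ 0 v (Or.inl hl),
        (GT P F i).co_act (hX.commT n P (GT P F) α i) σ₀ 1 v (Or.inl hl),
        Fin.sum_univ_two, Fin.sum_univ_two, Fin.sum_univ_two, Fin.sum_univ_two, ← h1]
      ring)
  have h1 := hβ ((F i).e σ₀ 0) ((F i).e σ₀ 1)
  simp only [LinearMap.sub_apply, LinearMap.compl₁₂_apply, LinearMap.mul_apply'] at h1
  have e1 : (GT P F i).co σ₀ = (F i).co σ₀ := rfl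
  rw [e1, (F i).co_e, (F i).co_e, (F i).co_e, if_pos ⟨rfl, rfl⟩, if_pos ⟨rfl, rfl⟩,
    if_neg (by simp), zero_mul, one_mul, sub_zero] at h1
  rw [Finset.sum_eq_zero (fun l _ => by rw [psi_end_zero (F i) hcen (hf l) hσ₀, mul_zero])] at h1
  exact one_ne_zero h1

/-- the conditions: four complex places -/
structure Four (P : ∀ i, PData (κ i) ϖ) (F : ∀ i, UF (P i) (K i) 2) : Prop where
  conj : ∀ t : Σ i, (K i →+* ℂ), conjT t ≠ t
  cov : ∀ s t t' : Σ i, (K i →+* ℂ), t ≠ s → t ≠ conjT s →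
    t' = s ∨ t' = conjT s ∨ t' = t ∨ t' = conjT t
  one : ∀ i j : I, i = j
  cen : ∀ i, ∀ f, IsDRB (P i) (P i) f → (∀ x, (F i).cc x = x → ∀ v,
    f ((F i).ρ x v) = (F i).ρ x (f v)) → ∃ x, ∀ v, f v = (F i).ρ x v

include hϖ hB hA in
lemma relU_nz (H : Four P F) (u : (Σ i, (K i →+* ℂ)) → ℚ) (hu : u ∈ relU n P (GT P F) α)
    (t : Σ i, (K i →+* ℂ)) (ht : u t = 0) (t' : Σ i, (K i →+* ℂ)) : u t' = 0 := by
  classical
  by_contra hne
  have h1 : t' ≠ t := by rintro rfl; exact hne ht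
  have h2 : t' ≠ conjT t := by
    rintro rfl
    rw [hu.1, ht, neg_zero] at hne
    exact hne rfl
  have hu0 : u (conjT t) = 0 := by rw [hu.1, ht, neg_zero]
  have hc' : conjT t' ≠ t := fun h => h2 (by rw [← h, conjT_conjT])
  have hcc' : conjT t' ≠ conjT t := fun h => h1 (by rw [← conjT_conjT t', h, conjT_conjT])
  have hw : ∀ s, u s = u t' * ((if s = t' then 1 else 0) - (if s = conjT t' then 1 else 0)) := by
    intro s
    rcases H.cov t t' s h1 h2 with rfl | rfl | rfl | rfl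
    · rw [ht, if_neg (Ne.symm h1), if_neg (Ne.symm hc'), sub_zero, mul_zero]
    · rw [hu0, if_neg (Ne.symm h2), if_neg (Ne.symm hcc'), sub_zero, mul_zero]
    · rw [if_pos rfl, if_neg (Ne.symm (H.conj _)), sub_zero, mul_one]
    · rw [hu.1, if_neg (H.conj _), if_pos rfl, zero_sub, mul_neg, mul_one]
  obtain ⟨i, σ₀⟩ := t'
  refine trace_ne n P F α hϖ hB hA i (H.cen i) σ₀ (fun h => H.conj ⟨i, σ₀⟩ (by
    show (⟨i, ComplexEmbedding.conjugate σ₀⟩ : Σ i, (K i →+* ℂ)) = ⟨i, σ₀⟩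
    rw [h])) (fun X hX hr => ?_)
  have h3 := hu.2 X hX hr
  have h4 : ∑ s, (u s : ℂ) * wtU P (GT P F) s X =
      (u ⟨i, σ₀⟩ : ℂ) * (wtU P (GT P F) ⟨i, σ₀⟩ X - wtU P (GT P F) (conjT ⟨i, σ₀⟩) X) := by
    have h5 : ∀ s, (u s : ℂ) * wtU P (GT P F) s X = (u ⟨i, σ₀⟩ : ℂ) *
        ((if s = ⟨i, σ₀⟩ then wtU P (GT P F) s X else 0) -
        (if s = conjT ⟨i, σ₀⟩ then wtU P (GT P F) s X else 0)) := by
      intro s
      rw [hw s]
      push_cast
      split_ifs <;> ring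
    rw [Finset.sum_congr rfl fun s _ => h5 s, ← Finset.mul_sum, Finset.sum_sub_distrib,
      Finset.sum_ite_eq' Finset.univ, Finset.sum_ite_eq' Finset.univ]
    simp
  rw [h4] at h3
  have h5 := (mul_eq_zero.mp h3).resolve_left (by exact_mod_cast hne)
  have h6 := wtU_conj n P (GT P F) α ⟨i, σ₀⟩ X hX
  linear_combination h5 / 2 + h6 / 2

include hϖ hB hA in
lemma relU_gal (H : Four P F) (u : (Σ i, (K i →+* ℂ)) → ℚ) (hu : u ∈ relU n P (GT P F) α)
    (hu0 : u ≠ 0) (g : ℂ ≃+* ℂ) : ∃ c : ℚ, c ^ 2 = 1 ∧ ∀ t, u (actT g t) = c * u t := by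
  obtain ⟨t0, ht0⟩ : ∃ t0, u t0 ≠ 0 := by
    by_contra hcon
    push Not at hcon
    exact hu0 (funext hcon)
  obtain ⟨c, hc⟩ : ∃ c, c = u (actT g t0) / u t0 := ⟨_, rfl⟩
  have h1 : (fun t => u (actT g t)) - c • u ∈ relU n P (GT P F) α :=
    Submodule.sub_mem _ (relU_stable n P (GT P F) α g u hu) (Submodule.smul_mem _ _ hu)
  have h2 : ∀ t, u (actT g t) = c * u t := by
    intro t
    have h3 := relU_nz n P F α hϖ hB hA H _ h1 t0 (by
      show u (actT g t0) - c * u t0 = 0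
      rw [hc, div_mul_cancel₀ _ ht0, sub_self]) t
    have h4 : u (actT g t) - c * u t = 0 := h3
    exact sub_eq_zero.mp h4
  refine ⟨c, ?_, h2⟩
  have h3 : ∑ t, u t ^ 2 = c ^ 2 * ∑ t, u t ^ 2 := by
    refine (Fintype.sum_equiv (actT g) (fun t => u (actT g t) ^ 2) (fun t => u t ^ 2)
      (fun _ => rfl)).symm.trans ?_
    rw [Finset.mul_sum]
    exact Finset.sum_congr rfl fun t _ => by rw [h2, mul_pow]
  have h4 : 0 < ∑ t, u t ^ 2 :=
    lt_of_lt_of_le (by positivity) (Finset.single_le_sum (f := fun t => u t ^ 2)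
      (fun t _ => sq_nonneg (u t)) (Finset.mem_univ t0))
  have h5 : (c ^ 2 - 1) * ∑ t, u t ^ 2 = 0 := by linear_combination -h3
  have h6 := (mul_eq_zero.mp h5).resolve_right h4.ne'
  linear_combination h6

include hϖ hB hA in
lemma relU_abs (H : Four P F) (u : (Σ i, (K i →+* ℂ)) → ℚ) (hu : u ∈ relU n P (GT P F) α)
    (t t' : Σ i, (K i →+* ℂ)) : u t ^ 2 = u t' ^ 2 := by
  by_cases hu0 : u = 0
  · rw [hu0]; rfl
  obtain ⟨i, σ⟩ := t
  obtain ⟨j, τ⟩ := t'
  obtain rfl := H.one i j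
  obtain ⟨g, hg⟩ := Helper84.exists_aut σ τ
  obtain ⟨c, hc1, hc2⟩ := relU_gal n P F α hϖ hB hA H u hu hu0 g
  have h1 := hc2 ⟨i, σ⟩
  have h2 : actT g (⟨i, σ⟩ : Σ i, (K i →+* ℂ)) = ⟨i, τ⟩ := by
    show (⟨i, (g : ℂ →+* ℂ).comp σ⟩ : Σ i, (K i →+* ℂ)) = ⟨i, τ⟩
    rw [hg]
  rw [h2] at h1
  rw [h1, mul_pow, hc1, one_mul]

include hϖ hB hA in
/-- a relation gives an imaginary quadratic element -/
theorem exists_J (H : Four P F) (u : (Σ i, (K i →+* ℂ)) → ℚ) (hu : u ∈ relU n P (GT P F) α)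
    (t0 : Σ i, (K i →+* ℂ)) (ht0 : u t0 ≠ 0) :
    ∃ (x : ∀ i, K i) (d : ℚ) (c : ℂ), 0 < d ∧ (∀ i, x i * x i = -(d : K i)) ∧
      ∀ t : Σ i, (K i →+* ℂ), u t = u t0 → t.2 (x t.1) = c := by
  have hu0 : u ≠ 0 := by
    rintro rfl
    exact ht0 rfl
  obtain ⟨x, d, c, h1, h2, -, h3⟩ := exists_quad t0.1 K (fun t => u t / u t0) (fun t => by
    rw [div_pow, relU_abs n P F α hϖ hB hA H u hu t t0]
    exact div_self (pow_ne_zero 2 ht0)) (fun i σ => by
    have h1 : u ⟨i, ComplexEmbedding.conjugate σ⟩ = - u ⟨i, σ⟩ := hu.1 ⟨i, σ⟩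
    show u ⟨i, ComplexEmbedding.conjugate σ⟩ / u t0 = - (u ⟨i, σ⟩ / u t0)
    rw [h1, neg_div]) (fun g => by
    obtain ⟨c, hc1, hc2⟩ := relU_gal n P F α hϖ hB hA H u hu hu0 g
    refine ⟨c, hc1, fun i σ => ?_⟩
    have h1 : u ⟨i, (g : ℂ →+* ℂ).comp σ⟩ = c * u ⟨i, σ⟩ := hc2 ⟨i, σ⟩
    show u ⟨i, (g : ℂ →+* ℂ).comp σ⟩ / u t0 = c * (u ⟨i, σ⟩ / u t0)
    rw [h1, mul_div_assoc])
  refine ⟨x, d, c, h1, h2, fun t ht => ?_⟩
  have h4 := h3 t.1 t.2
  have h5 : u ⟨t.1, t.2⟩ / u t0 = 1 := by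
    show u t / u t0 = 1
    rw [ht, div_self ht0]
  rw [h4, h5, Rat.cast_one, mul_one]

end family

end Pool.Agent.Helper24
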