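import Pool.Agent.Helper28.AF.SpanC
import Pool.Agent.Helper7.J8

/-!
From the complex span of products of invariant pairings and of multilinear forms of Weil type to
divisorial classes and Weil classes; endomorphisms of products.
-/

namespace Pool.Agent.Helper24

open Module NumberField Pool.Agent.Helper7 Pool.Agent.GPC

set_option linter.unusedSectionVars false

section alt

variable {W : Type*} [AddCommGroup W] [Module ℂ W]

/-- the alternatisation of a multilinear form which is balanced for `J` -/
lemma alt_balanced {m : ℕ} (M : MultilinearMap ℂ (fun _ : Fin m => W) ℂ) (J : W → W)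
    (h : ∀ v r s, M (Function.update v r (J (v r))) = M (Function.update v s (J (v s))))
    (v : Fin m → W) (r s : Fin m) :
    (MultilinearMap.alternatization M) (Function.update v r (J (v r))) =
      (MultilinearMap.alternatization M) (Function.update v s (J (v s))) := by
  rw [MultilinearMap.alternatization_apply, MultilinearMap.alternatization_apply]
  refine Finset.sum_congr rfl fun π _ => ?_
  congr 1
  have key : ∀ r : Fin m, (MultilinearMap.domDomCongr π M) (Function.update v r (J (v r))) =
      M (Function.update (v ∘ π) (π.symm r) (J ((v ∘ π) (π.symm r)))) := by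
    intro r
    rw [MultilinearMap.domDomCongr_apply]
    congr 1
    funext a
    by_cases ha : π a = r
    · have : a = π.symm r := by rw [← ha, Equiv.symm_apply_apply]
      subst this
      rw [Function.update_self]
      simp
    · have h2 : a ≠ π.symm r := fun h => ha (by rw [h, Equiv.apply_symm_apply])
      rw [Function.update_of_ne h2, Function.update_of_ne ha, Function.comp_apply]
  rw [key, key]
  exact h _ _ _

end alt

section product

variable {I : Type} [Fintype I] (A : I → AbVar) (n : I → ℕ)

/-- from multilinear forms to classes -/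
theorem isDivisorialWeil_of_mult [DecidableEq I] (k : ℕ) (α : Form A n (2 * k))
    (hα : IsGrothendieck A n k α)
    (h : (α : MultilinearMap ℂ
        (fun _ : Fin (2 * k) => HW (fun i => Fin (A i).g ⊕ Fin (A i).g) n) ℂ) ∈
      Submodule.span ℂ ({M | ∃ (π : Equiv.Perm (Fin (2 * k)))
        (β : Fin k → (HW (fun i => Fin (A i).g ⊕ Fin (A i).g) n →ₗ[ℂ]
          HW (fun i => Fin (A i).g ⊕ Fin (A i).g) n →ₗ[ℂ] ℂ)),
        (∀ a, β a ∈ invB n (fun i => pData (A i)) (α : MultilinearMap ℂ
        (fun _ : Fin (2 * k) => HW (fun i => Fin (A i).g ⊕ Fin (A i).g) n) ℂ)) ∧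
          M = (prodBilin β).domDomCongr π} ∪
      {M | (k = 2 ∧ ∑ i, n i * (A i).g = 4) ∧ ∃ (d : ℚ) (J : H1 A n → H1 A n),
        IsWeilStructure A n d J ∧ ∀ v r s, M (Function.update v r (J (v r))) =
          M (Function.update v s (J (v s)))})) : IsDivisorialWeil A n k α := by
  classical
  have hϖ := Complex.two_pi_I_ne_zero
  have hB : ∀ v : Fin (2 * k) → HW (fun i => Fin (A i).g ⊕ Fin (A i).g) n,
      (∀ r, IsRatP n (fun i => pData (A i)) (v r)) →
      ∃ q : ℚ, (α : MultilinearMap ℂ
        (fun _ : Fin (2 * k) => HW (fun i => Fin (A i).g ⊕ Fin (A i).g) n) ℂ) v =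
          (2 * Real.pi * Complex.I) ^ k * q := by
    intro v hv
    apply hα.2
    intro r i m
    exact (mem_pData_Q _ _).mp (hv r i m)
  have hA : ∀ v : Fin (2 * k) → HW (fun i => Fin (A i).g ⊕ Fin (A i).g) n,
      (∀ r i m j, IsAlgebraic ℚ (v r i m j)) → IsAlgebraic ℚ ((α : MultilinearMap ℂ
        (fun _ : Fin (2 * k) => HW (fun i => Fin (A i).g ⊕ Fin (A i).g) n) ℂ) v) := hα.1
  refine Pool.Agent.Helper28.isDivisorialWeil_of_span A n k α hα ?_
  have hgen : ∀ M : MultilinearMap ℂ
        (fun _ : Fin (2 * k) => HW (fun i => Fin (A i).g ⊕ Fin (A i).g) n) ℂ, M ∈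
      Submodule.span ℂ ({M | ∃ (π : Equiv.Perm (Fin (2 * k)))
        (β : Fin k → (HW (fun i => Fin (A i).g ⊕ Fin (A i).g) n →ₗ[ℂ]
          HW (fun i => Fin (A i).g ⊕ Fin (A i).g) n →ₗ[ℂ] ℂ)),
        (∀ a, β a ∈ invB n (fun i => pData (A i)) (α : MultilinearMap ℂ
        (fun _ : Fin (2 * k) => HW (fun i => Fin (A i).g ⊕ Fin (A i).g) n) ℂ)) ∧
          M = (prodBilin β).domDomCongr π} ∪
      {M | (k = 2 ∧ ∑ i, n i * (A i).g = 4) ∧ ∃ (d : ℚ) (J : H1 A n → H1 A n),
        IsWeilStructure A n d J ∧ ∀ v r s, M (Function.update v r (J (v r))) =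
          M (Function.update v s (J (v s)))}) →
      (MultilinearMap.alternatization M : Form A n (2 * k)) ∈
        Submodule.span ℂ ({w : Form A n (2 * k) |
        ∃ γ : Fin k → (H1 A n →ₗ[ℂ] H1 A n →ₗ[ℂ] ℂ),
          (∀ a, γ a ∈ GW n (fun i => pData (A i))) ∧ w = wedge γ} ∪
      {w : Form A n (2 * k) | (k = 2 ∧ ∑ i, n i * (A i).g = 4) ∧
        ∃ (d : ℚ) (J : H1 A n → H1 A n), IsWeilStructure A n d J ∧
        ∀ v r s, w (Function.update v r (J (v r))) = w (Function.update v s (J (v s)))}) := by
    intro M hM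
    induction hM using Submodule.span_induction with
    | mem M hM =>
      rcases hM with ⟨π, β, hβ, rfl⟩ | ⟨hk, d, J, hJ, hM⟩
      · refine Submodule.span_mono Set.subset_union_left ?_
        rw [alternatization_domDomCongr]
        have h4 := wedge_mem_span (GW n (fun i => pData (A i))) β
          (fun a => inv_mem_GW n (fun i => pData (A i)) _ hϖ hB hA _ (hβ a))
        rcases Int.units_eq_one_or (Equiv.Perm.sign π) with h | h
        · rw [h, one_smul]; exact h4
        · rw [h, Units.neg_smul, one_smul]; exact Submodule.neg_mem _ h4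
      · exact Submodule.subset_span (Or.inr ⟨hk, d, J, hJ, fun v r s =>
          alt_balanced M J hM v r s⟩)
    | zero => rw [map_zero]; exact Submodule.zero_mem _
    | add x y _ _ hx hy => rw [map_add]; exact Submodule.add_mem _ hx hy
    | smul c x _ hx => rw [alternatization_smul]; exact Submodule.smul_mem _ _ hx
  have h2 := hgen _ h
  rw [AlternatingMap.coe_alternatization, ← Nat.cast_smul_eq_nsmul ℂ] at h2
  have h3 := Submodule.smul_mem _ (((Nat.factorial (Fintype.card (Fin (2 * k)))) : ℂ)⁻¹) h2
  rw [smul_smul, inv_mul_cancel₀ (Nat.cast_ne_zero.mpr (Nat.factorial_ne_zero _)),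
    one_smul] at h3
  exact h3

end product

end Pool.Agent.Helper24
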